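import Pool.Agent.helper35.VN.TauB

set_option autoImplicit false

/-!
# An explicit involution of the grid of size three times six
-/

namespace Pool.Agent.helper35.VN

/-- The involution: its nine two-cycles. -/
def tau (x : Fin 3 × Fin 6) : Fin 3 × Fin 6 :=
  match x with
  | (0, 0) => (2, 3)
  | (0, 1) => (2, 4)
  | (0, 2) => (2, 1)
  | (0, 3) => (2, 5)
  | (0, 4) => (1, 2)
  | (0, 5) => (2, 0)
  | (1, 0) => (1, 1)
  | (1, 1) => (1, 0)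
  | (1, 2) => (0, 4)
  | (1, 3) => (1, 5)
  | (1, 4) => (2, 2)
  | (1, 5) => (1, 3)
  | (2, 0) => (0, 5)
  | (2, 1) => (0, 2)
  | (2, 2) => (1, 4)
  | (2, 3) => (0, 0)
  | (2, 4) => (0, 1)
  | (2, 5) => (0, 3)

theorem tau_good : Good tau where
  inv := by decide
  fix := by decide
  p1 := by decide
  p2 := by decide

theorem tau_rigid (A : Type*) [AddCommGroup A] : Rigid tau A := by
  intro a1 a2 a3 a4 h
  have h0 : a1 0 - a2 2 = a3 0 - a4 3 := h (0, 0)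
  have h1 : a1 0 - a2 2 = a3 1 - a4 4 := h (0, 1)
  have h2 : a1 0 - a2 2 = a3 2 - a4 1 := h (0, 2)
  have h3 : a1 0 - a2 2 = a3 3 - a4 5 := h (0, 3)
  have h4 : a1 0 - a2 1 = a3 4 - a4 2 := h (0, 4)
  have h5 : a1 0 - a2 2 = a3 5 - a4 0 := h (0, 5)
  have h6 : a1 1 - a2 1 = a3 0 - a4 1 := h (1, 0)
  have h7 : a1 1 - a2 1 = a3 1 - a4 0 := h (1, 1)
  have h8 : a1 1 - a2 0 = a3 2 - a4 4 := h (1, 2)
  have h9 : a1 1 - a2 1 = a3 3 - a4 5 := h (1, 3)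
  have h10 : a1 1 - a2 2 = a3 4 - a4 2 := h (1, 4)
  have h11 : a1 1 - a2 1 = a3 5 - a4 3 := h (1, 5)
  have h12 : a1 2 - a2 0 = a3 0 - a4 5 := h (2, 0)
  have h13 : a1 2 - a2 0 = a3 1 - a4 2 := h (2, 1)
  have h14 : a1 2 - a2 1 = a3 2 - a4 4 := h (2, 2)
  have h15 : a1 2 - a2 0 = a3 3 - a4 0 := h (2, 3)
  have h16 : a1 2 - a2 0 = a3 4 - a4 1 := h (2, 4)
  have h17 : a1 2 - a2 0 = a3 5 - a4 3 := h (2, 5)
  have e0_1 : a1 0 = a1 1 := by
    linear_combination (norm := module) (1 : ℤ) • h0 + (-1 : ℤ) • h3 + (1 : ℤ) • h5 + (-1 : ℤ) • h6 + (-1 : ℤ) • h7 + (1 : ℤ) • h9 + (-1 : ℤ) • h10 + (1 : ℤ) • h11 + (1 : ℤ) • h13 + (1 : ℤ) • h16 + (-2 : ℤ) • h17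
  have e0_2 : a1 0 = a1 2 := by
    linear_combination (norm := module) (1 : ℤ) • h0 + (-1 : ℤ) • h1 + (-1 : ℤ) • h2 + (1 : ℤ) • h3 + (1 : ℤ) • h5 + (1 : ℤ) • h8 + (-1 : ℤ) • h10 + (-1 : ℤ) • h12 + (1 : ℤ) • h13 + (-1 : ℤ) • h15 + (1 : ℤ) • h16 + (-1 : ℤ) • h17
  have e3_1 : a2 0 = a2 1 := by
    linear_combination (norm := module) (1 : ℤ) • h1 + (1 : ℤ) • h2 + (-2 : ℤ) • h3 + (-1 : ℤ) • h6 + (-1 : ℤ) • h7 + (-1 : ℤ) • h8 + (1 : ℤ) • h9 + (2 : ℤ) • h11 + (1 : ℤ) • h12 + (1 : ℤ) • h15 + (-2 : ℤ) • h17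
  have e3_2 : a2 0 = a2 2 := by
    linear_combination (norm := module) (-1 : ℤ) • h0 + (1 : ℤ) • h1 + (1 : ℤ) • h2 + (-1 : ℤ) • h5 + (-1 : ℤ) • h8 + (-1 : ℤ) • h9 + (1 : ℤ) • h10 + (1 : ℤ) • h11 + (1 : ℤ) • h12 + (-1 : ℤ) • h13 + (1 : ℤ) • h15 + (-1 : ℤ) • h16
  have e6_1 : a3 0 = a3 1 := by
    linear_combination (norm := module) (-1 : ℤ) • h0 + (2 : ℤ) • h3 + (-1 : ℤ) • h5 + (1 : ℤ) • h7 + (-2 : ℤ) • h9 + (1 : ℤ) • h11
  have e6_2 : a3 0 = a3 2 := by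
    linear_combination (norm := module) (1 : ℤ) • h2 + (-1 : ℤ) • h3 + (-1 : ℤ) • h6 + (1 : ℤ) • h9
  have e6_3 : a3 0 = a3 3 := by
    linear_combination (norm := module) (1 : ℤ) • h9 + (-1 : ℤ) • h11 + (-1 : ℤ) • h12 + (1 : ℤ) • h17
  have e6_4 : a3 0 = a3 4 := by
    linear_combination (norm := module) (-1 : ℤ) • h6 + (1 : ℤ) • h11 + (1 : ℤ) • h16 + (-1 : ℤ) • h17
  have e6_5 : a3 0 = a3 5 := by
    linear_combination (norm := module) (-1 : ℤ) • h0 + (1 : ℤ) • h3 + (-1 : ℤ) • h9 + (1 : ℤ) • h11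
  have e12_1 : a4 0 = a4 1 := by
    linear_combination (norm := module) (1 : ℤ) • h0 + (-2 : ℤ) • h3 + (1 : ℤ) • h5 + (-1 : ℤ) • h6 + (2 : ℤ) • h9 + (-1 : ℤ) • h11
  have e12_2 : a4 0 = a4 2 := by
    linear_combination (norm := module) (1 : ℤ) • h7 + (-1 : ℤ) • h11 + (-1 : ℤ) • h13 + (1 : ℤ) • h17
  have e12_3 : a4 0 = a4 3 := by
    linear_combination (norm := module) (-1 : ℤ) • h3 + (1 : ℤ) • h5 + (1 : ℤ) • h9 + (-1 : ℤ) • h11
  have e12_4 : a4 0 = a4 4 := by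
    linear_combination (norm := module) (-1 : ℤ) • h1 + (1 : ℤ) • h3 + (1 : ℤ) • h7 + (-1 : ℤ) • h9
  have e12_5 : a4 0 = a4 5 := by
    linear_combination (norm := module) (-1 : ℤ) • h9 + (1 : ℤ) • h11 + (1 : ℤ) • h15 + (-1 : ℤ) • h17
  refine ⟨?_, ?_, ?_, ?_⟩
  · have k : ∀ i, a1 0 = a1 i := by
      intro i
      fin_cases i
      · rfl
      · exact e0_1
      · exact e0_2
    exact fun i i' => (k i).symm.trans (k i')
  · have k : ∀ i, a2 0 = a2 i := by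
      intro i
      fin_cases i
      · rfl
      · exact e3_1
      · exact e3_2
    exact fun i i' => (k i).symm.trans (k i')
  · have k : ∀ i, a3 0 = a3 i := by
      intro i
      fin_cases i
      · rfl
      · exact e6_1
      · exact e6_2
      · exact e6_3
      · exact e6_4
      · exact e6_5
    exact fun i i' => (k i).symm.trans (k i')
  · have k : ∀ i, a4 0 = a4 i := by
      intro i
      fin_cases i
      · rfl
      · exact e12_1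
      · exact e12_2
      · exact e12_3
      · exact e12_4
      · exact e12_5
    exact fun i i' => (k i).symm.trans (k i')

end Pool.Agent.helper35.VN
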