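import Mathlib

set_option autoImplicit false

/-!
# Koszul chains on the monomial basis

A chain is a finitely supported function on pairs `(T, m)`, standing for `m e_T` with `T` a finite set of vertices and
`m` a monomial. `dd` is the Koszul differential, `wd v` is left multiplication by `e_v`, `xm v` multiplication by `x_v`.
-/

namespace Pool.Agent.helper35.VN

open Finset

noncomputable section

variable {V : Type*} [LinearOrder V]

/-- The sign of the position of `v` relative to `T`. -/
def sg (v : V) (T : Finset V) : ℤ := (-1) ^ (T.filter (fun u => u < v)).card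

theorem sg_sq (v : V) (T : Finset V) : sg v T * sg v T = 1 := by
  unfold sg
  rw [← pow_add, ← two_mul, pow_mul]
  norm_num

theorem sg_insert (u v : V) (T : Finset V) (hu : u ∉ T) :
    sg v (insert u T) = if u < v then - sg v T else sg v T := by
  unfold sg
  rw [Finset.filter_insert]
  split_ifs with h
  · rw [Finset.card_insert_of_notMem (fun h' => hu (Finset.mem_filter.mp h').1), pow_succ]
    ring
  · rfl

theorem sg_insert_self (v : V) (T : Finset V) (hv : v ∉ T) : sg v (insert v T) = sg v T := by
  rw [sg_insert v v T hv, if_neg (lt_irrefl v)]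

theorem sg_erase_self (v : V) (T : Finset V) : sg v (T.erase v) = sg v T := by
  by_cases h : v ∈ T
  · conv_rhs => rw [← Finset.insert_erase h]
    rw [sg_insert_self v _ (Finset.notMem_erase v T)]
  · rw [Finset.erase_eq_of_notMem h]

theorem sg_swap (u v : V) (T : Finset V) (hu : u ∈ T) (hv : v ∉ T) :
    sg v T * sg u (insert v T) = - (sg u T * sg v (T.erase u)) := by
  have huv : u ≠ v := fun h => hv (h ▸ hu)
  have h1 : sg v T = if u < v then - sg v (T.erase u) else sg v (T.erase u) := by
    conv_lhs => rw [← Finset.insert_erase hu]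
    rw [sg_insert u v _ (Finset.notMem_erase u T)]
  rw [h1, sg_insert v u T hv]
  rcases lt_or_gt_of_ne huv with h | h
  · rw [if_pos h, if_neg (not_lt.mpr h.le)]
    ring
  · rw [if_neg (not_lt.mpr h.le), if_pos h]
    ring

theorem sg_anti (s t : V) (T : Finset V) (hs : s ∉ T) (ht : t ∉ T) (hst : s ≠ t) :
    sg t T * sg s (insert t T) = - (sg s T * sg t (insert s T)) := by
  rw [sg_insert t s T ht, sg_insert s t T hs]
  rcases lt_or_gt_of_ne hst with h | h
  · rw [if_neg (not_lt.mpr h.le), if_pos h]
    ring
  · rw [if_pos h, if_neg (not_lt.mpr h.le)]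
    ring

variable (V) in
/-- Koszul chains of the polynomial ring on the monomial basis. -/
abbrev Ch (K : Type*) [Field K] := (Finset V × (V →₀ ℕ)) →₀ K

variable {K : Type*} [Field K]

variable (K) in
/-- The basis chain `m e_T`. -/
def bc (T : Finset V) (m : V →₀ ℕ) : Ch V K := Finsupp.single (T, m) 1

variable (V K) in
/-- The Koszul differential. -/
def dd : Ch V K →ₗ[K] Ch V K :=
  Finsupp.linearCombination K (fun p : Finset V × (V →₀ ℕ) =>
    ∑ v ∈ p.1, sg v p.1 • bc K (p.1.erase v) (p.2 + Finsupp.single v 1))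

variable (K) in
/-- Left multiplication by `e_v`. -/
def wd (v : V) : Ch V K →ₗ[K] Ch V K :=
  Finsupp.linearCombination K (fun p : Finset V × (V →₀ ℕ) =>
    if v ∈ p.1 then 0 else sg v p.1 • bc K (insert v p.1) p.2)

variable (K) in
/-- Multiplication by `x_v`. -/
def xm (v : V) : Ch V K →ₗ[K] Ch V K :=
  Finsupp.linearCombination K (fun p : Finset V × (V →₀ ℕ) => bc K p.1 (p.2 + Finsupp.single v 1))

theorem dd_bc (T : Finset V) (m : V →₀ ℕ) :
    dd V K (bc K T m) = ∑ v ∈ T, sg v T • bc K (T.erase v) (m + Finsupp.single v 1) := by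
  unfold dd bc
  rw [Finsupp.linearCombination_single, one_smul]

theorem wd_bc (v : V) (T : Finset V) (m : V →₀ ℕ) :
    wd K v (bc K T m) = if v ∈ T then 0 else sg v T • bc K (insert v T) m := by
  unfold wd bc
  rw [Finsupp.linearCombination_single, one_smul]

theorem wd_bc_of_mem (v : V) (T : Finset V) (m : V →₀ ℕ) (h : v ∈ T) : wd K v (bc K T m) = 0 := by
  rw [wd_bc, if_pos h]

theorem wd_bc_of_notMem (v : V) (T : Finset V) (m : V →₀ ℕ) (h : v ∉ T) :
    wd K v (bc K T m) = sg v T • bc K (insert v T) m := by
  rw [wd_bc, if_neg h]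

theorem xm_bc (v : V) (T : Finset V) (m : V →₀ ℕ) :
    xm K v (bc K T m) = bc K T (m + Finsupp.single v 1) := by
  unfold xm bc
  rw [Finsupp.linearCombination_single, one_smul]

/-- Two linear maps which agree on the basis chains are equal. -/
theorem ch_ext {W : Type*} [AddCommGroup W] [Module K W] (f g : Ch V K →ₗ[K] W)
    (h : ∀ T m, f (bc K T m) = g (bc K T m)) : f = g := by
  refine Finsupp.lhom_ext' fun p => ?_
  refine LinearMap.ext_ring ?_
  exact h p.1 p.2

theorem dd_wd (v : V) (c : Ch V K) : dd V K (wd K v c) + wd K v (dd V K c) = xm K v c := by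
  have key : (dd V K).comp (wd K v) + (wd K v).comp (dd V K) = xm K v := by
    refine ch_ext _ _ fun T m => ?_
    rw [LinearMap.add_apply, LinearMap.comp_apply, LinearMap.comp_apply, xm_bc, dd_bc, map_sum]
    by_cases hv : v ∈ T
    · rw [wd_bc_of_mem v T m hv, map_zero, zero_add, Finset.sum_eq_single_of_mem v hv]
      · rw [map_zsmul, wd_bc_of_notMem v _ _ (Finset.notMem_erase v T), Finset.insert_erase hv, sg_erase_self,
          smul_smul, sg_sq, one_smul]
      · intro u hu huv
        rw [map_zsmul, wd_bc_of_mem v _ _ (Finset.mem_erase.mpr ⟨huv.symm, hv⟩), smul_zero]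
    · rw [wd_bc_of_notMem v T m hv, map_zsmul, dd_bc, Finset.sum_insert hv, smul_add, smul_smul,
        sg_insert_self v T hv, sg_sq, one_smul, Finset.erase_insert hv, add_assoc]
      refine (add_eq_left).mpr ?_
      rw [Finset.smul_sum, ← Finset.sum_add_distrib]
      refine Finset.sum_eq_zero fun u hu => ?_
      have huv : u ≠ v := fun h => hv (h ▸ hu)
      have hv' : v ∉ T.erase u := fun h => hv (Finset.mem_of_mem_erase h)
      rw [map_zsmul, wd_bc_of_notMem v _ _ hv', smul_smul, smul_smul, Finset.erase_insert_of_ne huv.symm,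
        sg_swap u v T hu hv, neg_smul, neg_add_cancel]
  exact LinearMap.congr_fun key c

theorem wd_wd_self (v : V) (c : Ch V K) : wd K v (wd K v c) = 0 := by
  have key : (wd K v).comp (wd K v) = (0 : Ch V K →ₗ[K] Ch V K) := by
    refine ch_ext _ _ fun T m => ?_
    rw [LinearMap.comp_apply, LinearMap.zero_apply]
    by_cases hv : v ∈ T
    · rw [wd_bc_of_mem v T m hv, map_zero]
    · rw [wd_bc_of_notMem v T m hv, map_zsmul, wd_bc_of_mem v _ _ (Finset.mem_insert_self v T), smul_zero]
  exact LinearMap.congr_fun key c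

theorem wd_anti (s t : V) (c : Ch V K) : wd K s (wd K t c) = - wd K t (wd K s c) := by
  by_cases hst : s = t
  · subst hst
    rw [wd_wd_self, neg_zero]
  have key : (wd K s).comp (wd K t) = - (wd K t).comp (wd K s) := by
    refine ch_ext _ _ fun T m => ?_
    rw [LinearMap.neg_apply, LinearMap.comp_apply, LinearMap.comp_apply]
    by_cases hs : s ∈ T
    · rw [wd_bc_of_mem s T m hs, map_zero, neg_zero]
      by_cases ht : t ∈ T
      · rw [wd_bc_of_mem t T m ht, map_zero]
      · rw [wd_bc_of_notMem t T m ht, map_zsmul, wd_bc_of_mem s _ _ (Finset.mem_insert_of_mem hs), smul_zero]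
    · by_cases ht : t ∈ T
      · rw [wd_bc_of_mem t T m ht, map_zero, wd_bc_of_notMem s T m hs, map_zsmul,
          wd_bc_of_mem t _ _ (Finset.mem_insert_of_mem ht), smul_zero, neg_zero]
      · have h1 : s ∉ insert t T := fun h => (Finset.mem_insert.mp h).elim hst hs
        have h2 : t ∉ insert s T := fun h => (Finset.mem_insert.mp h).elim (fun h => hst h.symm) ht
        rw [wd_bc_of_notMem t T m ht, wd_bc_of_notMem s T m hs, map_zsmul, map_zsmul, wd_bc_of_notMem s _ m h1,
          wd_bc_of_notMem t _ m h2, smul_smul, smul_smul, Finset.insert_comm t s T, ← neg_smul,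
          sg_anti s t T hs ht hst]
  exact LinearMap.congr_fun key c

theorem xm_wd (s t : V) (c : Ch V K) : xm K s (wd K t c) = wd K t (xm K s c) := by
  have key : (xm K s).comp (wd K t) = (wd K t).comp (xm K s) := by
    refine ch_ext _ _ fun T m => ?_
    rw [LinearMap.comp_apply, LinearMap.comp_apply, xm_bc, wd_bc, wd_bc]
    split_ifs with h
    · rw [map_zero]
    · rw [map_zsmul, xm_bc]
  exact LinearMap.congr_fun key c

theorem dd_empty (m : V →₀ ℕ) : dd V K (bc K ∅ m) = 0 := by
  rw [dd_bc, Finset.sum_empty]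

/-- The chains with coefficients in the monomial ideal with predicate `NF` on supports. -/
def CI (K : Type*) [Field K] (NF : Finset V → Prop) : Submodule K (Ch V K) :=
  Finsupp.supported K K {p : Finset V × (V →₀ ℕ) | NF p.2.support}

theorem bc_mem_CI (NF : Finset V → Prop) (T : Finset V) (m : V →₀ ℕ) (h : NF m.support) : bc K T m ∈ CI K NF :=
  Finsupp.single_mem_supported K _ h

/-- To prove that a linear map sends `CI` into a submodule, it is enough to look at the basis chains. -/
theorem CI_map (NF : Finset V → Prop) {W : Type*} [AddCommGroup W] [Module K W] (f : Ch V K →ₗ[K] W)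
    (N : Submodule K W) (h : ∀ T m, NF m.support → f (bc K T m) ∈ N) (c : Ch V K) (hc : c ∈ CI K NF) :
    f c ∈ N := by
  have h1 : CI K NF = Submodule.span K ((fun p : Finset V × (V →₀ ℕ) => (Finsupp.single p (1 : K) : Ch V K)) ''
      {p : Finset V × (V →₀ ℕ) | NF p.2.support}) := by
    unfold CI
    rw [Finsupp.supported_eq_span_single]
  rw [h1] at hc
  have h2 : Submodule.span K ((fun p : Finset V × (V →₀ ℕ) => (Finsupp.single p (1 : K) : Ch V K)) ''
      {p : Finset V × (V →₀ ℕ) | NF p.2.support}) ≤ N.comap f := by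
    rw [Submodule.span_le]
    rintro _ ⟨p, hp, rfl⟩
    exact h p.1 p.2 hp
  exact h2 hc

theorem wd_mem_CI (NF : Finset V → Prop) (v : V) (c : Ch V K) (hc : c ∈ CI K NF) : wd K v c ∈ CI K NF := by
  refine CI_map NF (wd K v) (CI K NF) (fun T m hm => ?_) c hc
  rw [wd_bc]
  split_ifs
  · exact Submodule.zero_mem _
  · exact zsmul_mem (bc_mem_CI NF _ _ hm) _

end

end Pool.Agent.helper35.VN
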