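import Pool.Agent.helper35.VN.KosA

set_option autoImplicit false

/-!
# The contracting homotopy in the multidegrees that are not squarefree
-/

namespace Pool.Agent.helper35.VN

open Finset

noncomputable section

variable {V : Type*} [LinearOrder V] {K : Type*} [Field K]

/-- The multidegree of `m e_T`. -/
def mdeg (T : Finset V) (m : V →₀ ℕ) (v : V) : ℕ := m v + if v ∈ T then 1 else 0

theorem mdeg_erase (T : Finset V) (m : V →₀ ℕ) (u : V) (hu : u ∈ T) :
    mdeg (T.erase u) (m + Finsupp.single u 1) = mdeg T m := by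
  funext v
  unfold mdeg
  by_cases h : v = u
  · subst h
    rw [if_neg (Finset.notMem_erase v T), if_pos hu, Finsupp.add_apply, Finsupp.single_eq_same, add_zero]
  · have h1 : (v ∈ T.erase u) ↔ v ∈ T := by
      rw [Finset.mem_erase]
      exact ⟨fun h' => h'.2, fun h' => ⟨h, h'⟩⟩
    rw [Finsupp.add_apply, Finsupp.single_eq_of_ne h, add_zero]
    simp only [h1]

variable (K) in
/-- The homotopy on a basis chain of multidegree `α`. -/
def hb (α : V → ℕ) (T : Finset V) (m : V →₀ ℕ) : Ch V K :=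
  open scoped Classical in
  if h : ∃ v, 2 ≤ α v then wd K (Classical.choose h) (bc K T (m - Finsupp.single (Classical.choose h) 1)) else 0

variable (V K) in
/-- The homotopy. -/
def hh : Ch V K →ₗ[K] Ch V K :=
  Finsupp.linearCombination K (fun p : Finset V × (V →₀ ℕ) => hb K (mdeg p.1 p.2) p.1 p.2)

theorem hh_bc (T : Finset V) (m : V →₀ ℕ) : hh V K (bc K T m) = hb K (mdeg T m) T m := by
  unfold hh bc
  rw [Finsupp.linearCombination_single, one_smul]

theorem hb_pos (α : V → ℕ) (h : ∃ v, 2 ≤ α v) : ∃ v, 2 ≤ α v ∧ ∀ (T : Finset V) (m : V →₀ ℕ),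
    hb K α T m = wd K v (bc K T (m - Finsupp.single v 1)) := by
  refine ⟨Classical.choose h, Classical.choose_spec h, fun T m => ?_⟩
  unfold hb
  rw [dif_pos h]

theorem hb_neg (α : V → ℕ) (h : ¬ ∃ v, 2 ≤ α v) (T : Finset V) (m : V →₀ ℕ) : hb K α T m = 0 := by
  unfold hb
  rw [dif_neg h]

theorem hh_dd_pos (T : Finset V) (m : V →₀ ℕ) (h : ∃ v, 2 ≤ mdeg T m v) :
    dd V K (hh V K (bc K T m)) + hh V K (dd V K (bc K T m)) = bc K T m := by
  obtain ⟨v, hv, hb⟩ := hb_pos (K := K) (mdeg T m) h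
  have hm : 1 ≤ m v := by
    unfold mdeg at hv
    split_ifs at hv <;> omega
  have h1 : m - Finsupp.single v 1 + Finsupp.single v 1 = m := by
    refine tsub_add_cancel_of_le ?_
    rw [Finsupp.single_le_iff]
    exact hm
  rw [hh_bc, hb, dd_bc, map_sum]
  have h2 : ∑ u ∈ T, hh V K (sg u T • bc K (T.erase u) (m + Finsupp.single u 1)) =
      wd K v (dd V K (bc K T (m - Finsupp.single v 1))) := by
    rw [dd_bc, map_sum]
    refine Finset.sum_congr rfl fun u hu => ?_
    rw [map_zsmul, map_zsmul, hh_bc, mdeg_erase T m u hu, hb]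
    congr 3
    rw [← tsub_add_eq_add_tsub]
    rw [Finsupp.single_le_iff]
    exact hm
  rw [h2, dd_wd, xm_bc, h1]

theorem hh_dd_neg (T : Finset V) (m : V →₀ ℕ) (h : ¬ ∃ v, 2 ≤ mdeg T m v) :
    dd V K (hh V K (bc K T m)) + hh V K (dd V K (bc K T m)) = 0 := by
  rw [hh_bc, hb_neg _ h, map_zero, zero_add, dd_bc, map_sum]
  refine Finset.sum_eq_zero fun u hu => ?_
  rw [map_zsmul, hh_bc, mdeg_erase T m u hu, hb_neg _ h, smul_zero]

theorem hh_mem_CI (NF : Finset V → Prop) (c : Ch V K) (hc : c ∈ CI K NF) : hh V K c ∈ CI K NF := by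
  refine CI_map NF (hh V K) (CI K NF) (fun T m hm => ?_) c hc
  rw [hh_bc]
  by_cases h : ∃ v, 2 ≤ mdeg T m v
  · obtain ⟨v, hv, hb⟩ := hb_pos (K := K) (mdeg T m) h
    rw [hb]
    by_cases hvT : v ∈ T
    · rw [wd_bc_of_mem v T _ hvT]
      exact Submodule.zero_mem _
    · have hm2 : 2 ≤ m v := by
        unfold mdeg at hv
        rw [if_neg hvT] at hv
        exact hv
      refine wd_mem_CI NF v _ (bc_mem_CI NF _ _ ?_)
      have h3 : (m - Finsupp.single v 1).support = m.support := by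
        ext u
        rw [Finsupp.mem_support_iff, Finsupp.mem_support_iff, Finsupp.tsub_apply]
        by_cases huv : u = v
        · subst huv
          rw [Finsupp.single_eq_same]
          constructor <;> intro _ <;> omega
        · rw [Finsupp.single_eq_of_ne huv, tsub_zero]
      rw [h3]
      exact hm
  · rw [hb_neg _ h]
    exact Submodule.zero_mem _

/-- The boundaries modulo the chains with coefficients in the ideal. -/
def Bd (K : Type*) [Field K] (NF : Finset V → Prop) : Submodule K (Ch V K) :=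
  LinearMap.range (dd V K) ⊔ CI K NF

theorem dd_mem_Bd (NF : Finset V → Prop) (c : Ch V K) : dd V K c ∈ Bd K NF :=
  Submodule.mem_sup_left ⟨c, rfl⟩

theorem CI_le_Bd (NF : Finset V → Prop) (c : Ch V K) (hc : c ∈ CI K NF) : c ∈ Bd K NF :=
  Submodule.mem_sup_right hc

theorem mem_Bd (NF : Finset V → Prop) (c : Ch V K) (h1 : dd V K c ∈ CI K NF)
    (h2 : ∀ p ∈ c.support, (∀ v, mdeg p.1 p.2 v ≤ 1) → bc K p.1 p.2 ∈ Bd K NF) : c ∈ Bd K NF := by
  have h3 : dd V K (hh V K c) + hh V K (dd V K c) ∈ Bd K NF :=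
    Submodule.add_mem _ (dd_mem_Bd NF _) (CI_le_Bd NF _ (hh_mem_CI NF _ h1))
  obtain ⟨N, hN⟩ : ∃ N : Ch V K →ₗ[K] Ch V K, N = (dd V K).comp (hh V K) + (hh V K).comp (dd V K) := ⟨_, rfl⟩
  have hNa : ∀ x, N x = dd V K (hh V K x) + hh V K (dd V K x) := by
    intro x
    rw [hN]
    rfl
  have h4 : c - N c ∈ Bd K NF := by
    have h5 : c = ∑ p ∈ c.support, c p • bc K p.1 p.2 := by
      conv_lhs => rw [← Finsupp.sum_single c]
      rw [Finsupp.sum]
      refine Finset.sum_congr rfl fun p _ => ?_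
      unfold bc
      rw [Finsupp.smul_single, smul_eq_mul, mul_one]
    have h6 : c - N c = ∑ p ∈ c.support, c p • (bc K p.1 p.2 - N (bc K p.1 p.2)) := by
      conv_lhs => rw [h5]
      rw [map_sum, ← Finset.sum_sub_distrib]
      refine Finset.sum_congr rfl fun p _ => ?_
      rw [map_smul, smul_sub]
    rw [h6]
    refine Submodule.sum_mem _ fun p hp => Submodule.smul_mem _ _ ?_
    by_cases hnsf : ∃ v, 2 ≤ mdeg p.1 p.2 v
    · rw [hNa, hh_dd_pos _ _ hnsf, sub_self]
      exact Submodule.zero_mem _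
    · rw [hNa, hh_dd_neg _ _ hnsf, sub_zero]
      refine h2 p hp fun v => ?_
      by_contra hv
      exact hnsf ⟨v, by omega⟩
  have h7 : c = (c - N c) + N c := by abel
  rw [h7]
  refine Submodule.add_mem _ h4 ?_
  rw [hNa]
  exact h3

end

end Pool.Agent.helper35.VN
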