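import Pool.Agent.helper35.VN.KosB

set_option autoImplicit false

/-!
# The Koszul complex of `S/I` for a squarefree monomial ideal and the vanishing criterion
-/

namespace Pool.Agent.helper35.VN

open Finset MvPolynomial

noncomputable section

/-- The Koszul differential of `S/I`: `(∂z)_T = ∑ v ∉ T, ± x_v z_{T ∪ v}`. -/
def koszulD {K : Type*} [Field K] {V : Type*} [Fintype V] [LinearOrder V] (I : Ideal (MvPolynomial V K))
    (z : Finset V → MvPolynomial V K ⧸ I) (T : Finset V) : MvPolynomial V K ⧸ I :=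
  ∑ v ∈ univ \ T, (-1) ^ (T.filter (fun u => u < v)).card * (Ideal.Quotient.mk I (X v) * z (insert v T))

/-- `H_i(x; S/I)` is not zero in degree `i + e`. -/
def TorNeZero {K : Type*} [Field K] {V : Type*} [Fintype V] [LinearOrder V] (I : Ideal (MvPolynomial V K))
    (i e : ℕ) : Prop :=
  ∃ z : Finset V → MvPolynomial V K ⧸ I, (∀ T, T.card ≠ i → z T = 0) ∧
    (∀ T, ∃ p : MvPolynomial V K, p.IsHomogeneous e ∧ Ideal.Quotient.mk I p = z T) ∧
    (∀ T, koszulD I z T = 0) ∧
    ¬ ∃ w : Finset V → MvPolynomial V K ⧸ I, (∀ T, T.card ≠ i + 1 → w T = 0) ∧ ∀ T, z T = koszulD I w T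

variable {V : Type*} [LinearOrder V] {K : Type*} [Field K]

/-- From chains on the monomial basis to chains of `S/I`. -/
def toQ (I : Ideal (MvPolynomial V K)) : Ch V K →ₗ[K] (Finset V → MvPolynomial V K ⧸ I) :=
  Finsupp.linearCombination K (fun p : Finset V × (V →₀ ℕ) =>
    (Pi.single p.1 (Ideal.Quotient.mk I (monomial p.2 (1 : K))) : Finset V → MvPolynomial V K ⧸ I))

theorem toQ_bc (I : Ideal (MvPolynomial V K)) (T : Finset V) (m : V →₀ ℕ) :
    toQ I (bc K T m) = Pi.single T (Ideal.Quotient.mk I (monomial m (1 : K))) := by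
  unfold toQ bc
  rw [Finsupp.linearCombination_single, one_smul]

/-- The polynomial of the component `T` of a chain. -/
def pol (c : Ch V K) (T : Finset V) : MvPolynomial V K :=
  ∑ p ∈ c.support with p.1 = T, monomial p.2 (c p)

theorem coeff_pol (c : Ch V K) (T : Finset V) (m : V →₀ ℕ) : coeff m (pol c T) = c (T, m) := by
  unfold pol
  rw [coeff_sum]
  by_cases h : (T, m) ∈ c.support
  · have hmem : (T, m) ∈ c.support.filter (fun p => p.1 = T) := Finset.mem_filter.mpr ⟨h, rfl⟩
    rw [Finset.sum_eq_single_of_mem (T, m) hmem]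
    · rw [coeff_monomial, if_pos rfl]
    · intro p hp hne
      rw [coeff_monomial, if_neg]
      intro h'
      exact hne (Prod.ext (Finset.mem_filter.mp hp).2 h')
  · rw [Finsupp.notMem_support_iff.mp h]
    refine Finset.sum_eq_zero fun p hp => ?_
    rw [coeff_monomial, if_neg]
    intro h'
    exact h (by
      have : p = (T, m) := Prod.ext (Finset.mem_filter.mp hp).2 h'
      rw [← this]
      exact (Finset.mem_filter.mp hp).1)

theorem toQ_apply (I : Ideal (MvPolynomial V K)) (c : Ch V K) (T : Finset V) :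
    toQ I c T = Ideal.Quotient.mk I (pol c T) := by
  unfold toQ pol
  rw [Finsupp.linearCombination_apply, Finsupp.sum, Finset.sum_apply, map_sum, Finset.sum_filter]
  refine Finset.sum_congr rfl fun p _ => ?_
  rw [Pi.smul_apply]
  split_ifs with h
  · rw [← h, Pi.single_eq_same]
    have h1 : monomial p.2 (c p) = (c p) • (monomial p.2 (1 : K) : MvPolynomial V K) := by
      rw [smul_monomial, smul_eq_mul, mul_one]
    rw [h1]
    rfl
  · rw [Pi.single_eq_of_ne (fun h' => h h'.symm), smul_zero]

theorem toQ_eq_zero (I : Ideal (MvPolynomial V K)) (NF : Finset V → Prop)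
    (hI : ∀ p : MvPolynomial V K, p ∈ I ↔ ∀ m ∈ p.support, NF m.support) (c : Ch V K) :
    toQ I c = 0 ↔ c ∈ CI K NF := by
  constructor
  · intro h
    unfold CI
    rw [Finsupp.mem_supported]
    intro p hp
    have h1 : toQ I c p.1 = 0 := by rw [h]; rfl
    rw [toQ_apply, Ideal.Quotient.eq_zero_iff_mem, hI] at h1
    refine h1 p.2 ?_
    rw [mem_support_iff, coeff_pol]
    exact Finsupp.mem_support_iff.mp hp
  · intro h
    funext T
    rw [toQ_apply, Pi.zero_apply, Ideal.Quotient.eq_zero_iff_mem, hI]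
    intro m hm
    rw [mem_support_iff, coeff_pol] at hm
    unfold CI at h
    rw [Finsupp.mem_supported] at h
    exact h (Finsupp.mem_support_iff.mpr hm)

theorem koszulD_add [Fintype V] (I : Ideal (MvPolynomial V K)) (z w : Finset V → MvPolynomial V K ⧸ I) :
    koszulD I (z + w) = koszulD I z + koszulD I w := by
  funext T
  unfold koszulD
  rw [Pi.add_apply, ← Finset.sum_add_distrib]
  refine Finset.sum_congr rfl fun v _ => ?_
  rw [Pi.add_apply]
  ring

theorem koszulD_smul [Fintype V] (I : Ideal (MvPolynomial V K)) (a : K) (z : Finset V → MvPolynomial V K ⧸ I) :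
    koszulD I (a • z) = a • koszulD I z := by
  funext T
  unfold koszulD
  rw [Pi.smul_apply, Finset.smul_sum]
  refine Finset.sum_congr rfl fun v _ => ?_
  rw [Pi.smul_apply, mul_smul_comm, mul_smul_comm]

theorem toQ_dd [Fintype V] (I : Ideal (MvPolynomial V K)) (c : Ch V K) :
    toQ I (dd V K c) = koszulD I (toQ I c) := by
  obtain ⟨f, hf⟩ : ∃ f : (Finset V → MvPolynomial V K ⧸ I) →ₗ[K] (Finset V → MvPolynomial V K ⧸ I),
      ∀ z, f z = koszulD I z :=
    ⟨{ toFun := koszulD I, map_add' := koszulD_add I, map_smul' := koszulD_smul I }, fun _ => rfl⟩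
  have key : (toQ I).comp (dd V K) = f.comp (toQ I) := by
    refine ch_ext _ _ fun T m => ?_
    rw [LinearMap.comp_apply, LinearMap.comp_apply, hf, dd_bc, map_sum, toQ_bc]
    funext S
    rw [Finset.sum_apply]
    unfold koszulD
    have h1 : ∀ v, (v ∈ T ∧ T.erase v = S) ↔ (v ∈ univ \ S ∧ insert v S = T) := by
      intro v
      rw [Finset.mem_sdiff]
      constructor
      · rintro ⟨h, rfl⟩
        exact ⟨⟨Finset.mem_univ _, Finset.notMem_erase v T⟩, Finset.insert_erase h⟩
      · rintro ⟨⟨_, h⟩, rfl⟩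
        exact ⟨Finset.mem_insert_self v S, Finset.erase_insert h⟩
    have h2 : ∑ v ∈ T, (toQ I) (sg v T • bc K (T.erase v) (m + Finsupp.single v 1)) S =
        ∑ v ∈ T with T.erase v = S, sg v T • Ideal.Quotient.mk I (monomial (m + Finsupp.single v 1) (1 : K)) := by
      rw [Finset.sum_filter]
      refine Finset.sum_congr rfl fun v _ => ?_
      rw [map_zsmul, toQ_bc, Pi.smul_apply]
      split_ifs with h
      · rw [← h, Pi.single_eq_same]
      · rw [Pi.single_eq_of_ne (fun h' => h h'.symm), smul_zero]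
    have h3 : ∑ v ∈ univ \ S, (-1) ^ (S.filter (fun u => u < v)).card * (Ideal.Quotient.mk I (X v) *
        (Pi.single T (Ideal.Quotient.mk I (monomial m (1 : K))) : Finset V → MvPolynomial V K ⧸ I) (insert v S)) =
        ∑ v ∈ univ \ S with insert v S = T, (-1) ^ (S.filter (fun u => u < v)).card *
          (Ideal.Quotient.mk I (X v) * Ideal.Quotient.mk I (monomial m (1 : K))) := by
      rw [Finset.sum_filter]
      refine Finset.sum_congr rfl fun v _ => ?_
      split_ifs with h
      · rw [← h, Pi.single_eq_same]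
      · rw [Pi.single_eq_of_ne h, mul_zero, mul_zero]
    rw [h2, h3]
    refine Finset.sum_congr ?_ fun v hv => ?_
    · ext v
      rw [Finset.mem_filter, Finset.mem_filter]
      exact h1 v
    · rw [Finset.mem_filter] at hv
      obtain ⟨h6, h5⟩ := hv
      have h4 : v ∉ S := (Finset.mem_sdiff.mp h6).2
      have h8 : (X v : MvPolynomial V K) * monomial m (1 : K) = monomial (m + Finsupp.single v 1) (1 : K) := by
        rw [X, monomial_mul, one_mul, add_comm]
      rw [← h5, sg_insert_self v S h4, ← map_mul, h8]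
      unfold sg
      rw [zsmul_eq_mul]
      push_cast
      rfl
  have := LinearMap.congr_fun key c
  rw [LinearMap.comp_apply, LinearMap.comp_apply, hf] at this
  exact this

/-- The squarefree monomial with support `F`. -/
def ind (F : Finset V) : V →₀ ℕ :=
  Finsupp.onFinset F (fun v => if v ∈ F then 1 else 0) (fun v h => by
    by_contra h'
    exact h (if_neg h'))

theorem ind_apply (F : Finset V) (v : V) : ind F v = if v ∈ F then 1 else 0 := rfl

theorem ind_support (F : Finset V) : (ind F).support = F := by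
  ext v
  rw [Finsupp.mem_support_iff, ind_apply]
  split_ifs with h
  · exact ⟨fun _ => h, fun _ => one_ne_zero⟩
  · exact ⟨fun h' => absurd rfl h', fun h' => absurd h' h⟩

theorem no_tor [Fintype V] (I : Ideal (MvPolynomial V K)) (NF : Finset V → Prop)
    (hI : ∀ p : MvPolynomial V K, p ∈ I ↔ ∀ m ∈ p.support, NF m.support)
    (hD : ∀ F, ¬ NF F → F.card + 3 ≤ Fintype.card V)
    (hSF : ∀ T Q : Finset V, T ⊆ Q → Q.card = 3 → bc K T (ind Qᶜ) ∈ Bd K NF)
    (i e : ℕ) (he : Fintype.card V ≤ e + 3) : ¬ TorNeZero I i e := by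
  rintro ⟨z, hz1, hz2, hz3, hz4⟩
  choose p hp1 hp2 using hz2
  obtain ⟨P, hP⟩ : ∃ P : Finset V → MvPolynomial V K, P = fun T => if T.card = i then p T else 0 := ⟨_, rfl⟩
  have hP0 : ∀ T, T.card ≠ i → P T = 0 := by
    intro T hT
    rw [hP]
    exact if_neg hT
  have hP1 : ∀ T, (P T).IsHomogeneous e := by
    intro T
    by_cases hT : T.card = i
    · rw [hP]
      simp only [hT, if_true]
      exact hp1 T
    · rw [hP0 T hT]
      exact isHomogeneous_zero _ _ _
  have hP2 : ∀ T, Ideal.Quotient.mk I (P T) = z T := by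
    intro T
    by_cases hT : T.card = i
    · rw [hP]
      simp only [hT, if_true]
      exact hp2 T
    · rw [hP0 T hT, hz1 T hT, map_zero]
  obtain ⟨ζ, hζ⟩ : ∃ ζ : Ch V K, ∀ T m, ζ (T, m) = coeff m (P T) := by
    refine ⟨Finsupp.onFinset ((univ : Finset (Finset V)).biUnion (fun T => (P T).support.image (fun m => (T, m))))
      (fun q => coeff q.2 (P q.1)) (fun q hq => ?_), fun T m => rfl⟩
    rw [Finset.mem_biUnion]
    exact ⟨q.1, Finset.mem_univ _, Finset.mem_image.mpr ⟨q.2, mem_support_iff.mpr hq, rfl⟩⟩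
  have hζz : toQ I ζ = z := by
    funext T
    rw [toQ_apply, ← hP2 T]
    congr 1
    ext m
    rw [coeff_pol, hζ]
  have hdd : dd V K ζ ∈ CI K NF := by
    rw [← toQ_eq_zero I NF hI, toQ_dd, hζz]
    funext T
    exact hz3 T
  have hBd : ζ ∈ Bd K NF := by
    refine mem_Bd NF ζ hdd fun q hq hsf => ?_
    obtain ⟨T, m⟩ := q
    rw [Finsupp.mem_support_iff, hζ] at hq
    have hdeg : ∑ v ∈ m.support, m v = e := by
      have h1 : Finsupp.weight (1 : V → ℕ) m = e := hP1 T hq
      rw [Finsupp.weight_apply, Finsupp.sum] at h1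
      rw [← h1]
      refine Finset.sum_congr rfl fun v _ => ?_
      rw [Pi.one_apply, smul_eq_mul, mul_one]
    have hm1 : ∀ v, m v ≤ 1 := fun v => le_trans (Nat.le_add_right _ _) (hsf v)
    have hm2 : ∀ v ∈ m.support, m v = 1 := by
      intro v hv
      have h1 := hm1 v
      have h2 := Finsupp.mem_support_iff.mp hv
      omega
    have hcard : m.support.card = e := by
      rw [← hdeg, Finset.sum_congr rfl hm2, Finset.sum_const, smul_eq_mul, mul_one]
    by_cases hNF : NF m.support
    · exact CI_le_Bd NF _ (bc_mem_CI NF T m hNF)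
    have h3 := hD _ hNF
    have hQ : (m.supportᶜ).card = 3 := by
      rw [Finset.card_compl]
      omega
    have hmi : m = ind ((m.supportᶜ)ᶜ) := by
      ext v
      rw [compl_compl, ind_apply]
      split_ifs with h
      · exact hm2 v h
      · exact Finsupp.notMem_support_iff.mp h
    have hTQ : T ⊆ m.supportᶜ := by
      intro v hv
      rw [Finset.mem_compl]
      intro hv2
      have h4 := hsf v
      unfold mdeg at h4
      have h5 := hm2 v hv2
      simp only [hv, if_true] at h4
      omega
    have h6 := hSF T _ hTQ hQ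
    rw [← hmi] at h6
    exact h6
  obtain ⟨_, ⟨w, rfl⟩, c, hc, hwc⟩ := Submodule.mem_sup.mp hBd
  have hz : z = koszulD I (toQ I w) := by
    rw [← hζz, ← hwc, map_add, (toQ_eq_zero I NF hI c).mpr hc, add_zero, toQ_dd]
  refine hz4 ⟨fun T => if T.card = i + 1 then toQ I w T else 0, fun T hT => if_neg hT, fun T => ?_⟩
  unfold koszulD
  by_cases hT : T.card = i
  · conv_lhs => rw [hz]
    unfold koszulD
    refine Finset.sum_congr rfl fun v hv => ?_
    beta_reduce
    rw [if_pos]
    rw [Finset.card_insert_of_notMem (Finset.mem_sdiff.mp hv).2, hT]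
  · rw [hz1 T hT]
    symm
    refine Finset.sum_eq_zero fun v hv => ?_
    beta_reduce
    rw [if_neg, mul_zero, mul_zero]
    rw [Finset.card_insert_of_notMem (Finset.mem_sdiff.mp hv).2]
    omega

end

end Pool.Agent.helper35.VN
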