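import Pool.Agent.helper35.VN.KosC

set_option autoImplicit false

/-!
# The squarefree chains of polynomial degree `n - 3` are boundaries

`NF Qᶜ` says that `Q` is a face of the neighbourhood complex. Three topological conditions on this complex (each edge
is in a triangle, links of vertices connected, first cohomology zero) give that all squarefree chains of polynomial
degree `n - 3` are boundaries.
-/

namespace Pool.Agent.helper35.VN

open Finset

noncomputable section

variable {V : Type*} [LinearOrder V] {K : Type*} [Field K]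

theorem bc_insert (s : V) (T : Finset V) (m : V →₀ ℕ) (h : s ∉ T) :
    bc K (insert s T) m = sg s T • wd K s (bc K T m) := by
  rw [wd_bc_of_notMem s T m h, smul_smul, sg_sq, one_smul]

theorem bc_singleton (c : V) (m : V →₀ ℕ) : bc K {c} m = sg c ∅ • wd K c (bc K ∅ m) := by
  have h := bc_insert (K := K) c ∅ m (Finset.notMem_empty c)
  rwa [insert_empty_eq] at h

theorem xm_ind [Fintype V] (s : V) (T Z : Finset V) (h : s ∈ Z) :
    xm K s (bc K T (ind Zᶜ)) = bc K T (ind (Z.erase s)ᶜ) := by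
  rw [xm_bc]
  congr 1
  ext v
  rw [Finsupp.add_apply, ind_apply, ind_apply]
  simp only [Finset.mem_compl, Finset.mem_erase]
  by_cases hv : v = s
  · subst hv
    rw [Finsupp.single_eq_same, if_neg (fun h' => h' h), if_pos (fun h' => h'.1 rfl)]
  · rw [Finsupp.single_eq_of_ne hv, add_zero]
    by_cases hz : v ∈ Z
    · rw [if_neg (fun h' => h' hz), if_neg (fun h' => h' ⟨hv, hz⟩)]
    · rw [if_pos hz, if_pos (fun h' => hz h'.2)]

theorem dd_wd' (v : V) (c : Ch V K) : dd V K (wd K v c) = xm K v c - wd K v (dd V K c) := by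
  rw [← dd_wd v c]
  abel

theorem dd_wd1 (s : V) (m : V →₀ ℕ) : dd V K (wd K s (bc K ∅ m)) = xm K s (bc K ∅ m) := by
  rw [dd_wd', dd_empty, map_zero, sub_zero]

theorem dd_wd2 (s t : V) (m : V →₀ ℕ) : dd V K (wd K s (wd K t (bc K ∅ m))) =
    wd K t (xm K s (bc K ∅ m)) - wd K s (xm K t (bc K ∅ m)) := by
  rw [dd_wd', dd_wd1, xm_wd]

theorem dd_wd3 (s t u : V) (m : V →₀ ℕ) : dd V K (wd K s (wd K t (wd K u (bc K ∅ m)))) =
    wd K t (wd K u (xm K s (bc K ∅ m))) - wd K s (wd K u (xm K t (bc K ∅ m)))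
      + wd K s (wd K t (xm K u (bc K ∅ m))) := by
  rw [dd_wd', dd_wd2, xm_wd, xm_wd, map_sub]
  abel

theorem dd_wd4 (s t u v : V) (m : V →₀ ℕ) : dd V K (wd K s (wd K t (wd K u (wd K v (bc K ∅ m))))) =
    wd K t (wd K u (wd K v (xm K s (bc K ∅ m)))) - wd K s (wd K u (wd K v (xm K t (bc K ∅ m))))
      + wd K s (wd K t (wd K v (xm K u (bc K ∅ m)))) - wd K s (wd K t (wd K u (xm K v (bc K ∅ m)))) := by
  rw [dd_wd', dd_wd3, xm_wd, xm_wd, xm_wd, map_add, map_sub]
  abel

variable [Fintype V]

theorem sf0 (NF : Finset V → Prop) (hn : 4 ≤ Fintype.card V) (Q : Finset V) (hQ : Q.card = 3) :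
    bc K ∅ (ind Qᶜ) ∈ Bd K NF := by
  obtain ⟨s, hs⟩ : ∃ s, s ∉ Q := by
    by_contra h
    push Not at h
    have h1 : Q = univ := Finset.eq_univ_iff_forall.mpr h
    rw [h1, Finset.card_univ] at hQ
    omega
  have h1 := dd_mem_Bd NF (wd K s (bc K ∅ (ind (insert s Q)ᶜ)))
  rw [dd_wd1, xm_ind s ∅ _ (Finset.mem_insert_self s Q), Finset.erase_insert hs] at h1
  exact h1

theorem sf1 (NF : Finset V → Prop) (hT : ∀ x y, x ≠ y → ∃ s, s ≠ x ∧ s ≠ y ∧ NF ({x, y, s} : Finset V)ᶜ)
    (t x y : V) (htx : t ≠ x) (hty : t ≠ y) (hxy : x ≠ y) :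
    wd K t (bc K ∅ (ind ({x, y, t} : Finset V)ᶜ)) ∈ Bd K NF := by
  obtain ⟨s, hsx, hsy, hs⟩ := hT x y hxy
  by_cases hst : s = t
  · subst hst
    exact CI_le_Bd NF _ (wd_mem_CI NF _ _ (bc_mem_CI NF _ _ (by rw [ind_support]; exact hs)))
  have h1 := dd_mem_Bd NF (wd K s (wd K t (bc K ∅ (ind ({x, y, s, t} : Finset V)ᶜ))))
  have e1 : ({x, y, s, t} : Finset V).erase s = {x, y, t} := by
    ext a
    simp only [Finset.mem_erase, Finset.mem_insert, Finset.mem_singleton]
    constructor
    · rintro ⟨h2, h3⟩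
      tauto
    · rintro (rfl | rfl | rfl)
      · exact ⟨fun h => hsx h.symm, Or.inl rfl⟩
      · exact ⟨fun h => hsy h.symm, Or.inr (Or.inl rfl)⟩
      · exact ⟨fun h => hst h.symm, Or.inr (Or.inr (Or.inr rfl))⟩
  have e2 : ({x, y, s, t} : Finset V).erase t = {x, y, s} := by
    ext a
    simp only [Finset.mem_erase, Finset.mem_insert, Finset.mem_singleton]
    constructor
    · rintro ⟨h2, h3⟩
      tauto
    · rintro (rfl | rfl | rfl)
      · exact ⟨fun h => htx h.symm, Or.inl rfl⟩
      · exact ⟨fun h => hty h.symm, Or.inr (Or.inl rfl)⟩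
      · exact ⟨fun h => hst h, Or.inr (Or.inr (Or.inl rfl))⟩
  rw [dd_wd2, xm_ind s ∅ _ (by simp), xm_ind t ∅ _ (by simp), e1, e2] at h1
  have h2 : wd K s (bc K ∅ (ind ({x, y, s} : Finset V)ᶜ)) ∈ Bd K NF :=
    CI_le_Bd NF _ (wd_mem_CI NF _ _ (bc_mem_CI NF _ _ (by rw [ind_support]; exact hs)))
  have h3 := Submodule.add_mem _ h1 h2
  rw [sub_add_cancel] at h3
  exact h3

theorem sf2 (NF : Finset V → Prop)
    (x s t : V) (hsx : s ≠ x) (htx : t ≠ x)
    (hp : Relation.ReflTransGen (fun a b => b ≠ x ∧ NF ({x, a, b} : Finset V)ᶜ) s t) :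
    wd K s (wd K t (bc K ∅ (ind ({x, s, t} : Finset V)ᶜ))) ∈ Bd K NF := by
  induction hp with
  | refl =>
    rw [wd_wd_self]
    exact Submodule.zero_mem _
  | @tail a b hsa hab ih =>
    obtain ⟨hbx, hf⟩ := hab
    have hfab : ∀ c : Ch V K, c = wd K a (wd K b (bc K ∅ (ind ({x, a, b} : Finset V)ᶜ))) → c ∈ Bd K NF := by
      rintro _ rfl
      exact CI_le_Bd NF _ (wd_mem_CI NF _ _ (wd_mem_CI NF _ _ (bc_mem_CI NF _ _ (by rw [ind_support]; exact hf))))
    by_cases hsa' : s = a
    · subst hsa'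
      exact hfab _ rfl
    by_cases hsb : s = b
    · subst hsb
      rw [wd_wd_self]
      exact Submodule.zero_mem _
    by_cases hab' : a = b
    · subst hab'
      exact ih htx
    by_cases hax : a = x
    · -- then {x, x, b} is a face; handle by the reachability of `a` only through vertices different from `x`
      exfalso
      subst hax
      rcases Relation.ReflTransGen.cases_tail hsa with h | ⟨c, _, h⟩
      · exact hsa' h.symm
      · exact h.1 rfl
    have ih' := ih hax
    have h1 := dd_mem_Bd NF (wd K s (wd K a (wd K b (bc K ∅ (ind ({x, s, a, b} : Finset V)ᶜ)))))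
    have e1 : ({x, s, a, b} : Finset V).erase s = {x, a, b} := by
      ext c
      simp only [Finset.mem_erase, Finset.mem_insert, Finset.mem_singleton]
      constructor
      · rintro ⟨h2, h3⟩
        tauto
      · rintro (rfl | rfl | rfl)
        · exact ⟨fun h => hsx h.symm, Or.inl rfl⟩
        · exact ⟨fun h => hsa' h.symm, Or.inr (Or.inr (Or.inl rfl))⟩
        · exact ⟨fun h => hsb h.symm, Or.inr (Or.inr (Or.inr rfl))⟩
    have e2 : ({x, s, a, b} : Finset V).erase a = {x, s, b} := by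
      ext c
      simp only [Finset.mem_erase, Finset.mem_insert, Finset.mem_singleton]
      constructor
      · rintro ⟨h2, h3⟩
        tauto
      · rintro (rfl | rfl | rfl)
        · exact ⟨fun h => hax h.symm, Or.inl rfl⟩
        · exact ⟨fun h => hsa' h, Or.inr (Or.inl rfl)⟩
        · exact ⟨fun h => hab' h.symm, Or.inr (Or.inr (Or.inr rfl))⟩
    have e3 : ({x, s, a, b} : Finset V).erase b = {x, s, a} := by
      ext c
      simp only [Finset.mem_erase, Finset.mem_insert, Finset.mem_singleton]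
      constructor
      · rintro ⟨h2, h3⟩
        tauto
      · rintro (rfl | rfl | rfl)
        · exact ⟨fun h => hbx h.symm, Or.inl rfl⟩
        · exact ⟨fun h => hsb h, Or.inr (Or.inl rfl)⟩
        · exact ⟨fun h => hab' h, Or.inr (Or.inr (Or.inl rfl))⟩
    rw [dd_wd3, xm_ind s ∅ _ (by simp), xm_ind a ∅ _ (by simp), xm_ind b ∅ _ (by simp), e1, e2, e3] at h1
    have h2 := hfab _ rfl
    have h3 := Submodule.sub_mem _ (Submodule.add_mem _ h2 ih') h1
    have h4 : wd K a (wd K b (bc K ∅ (ind ({x, a, b} : Finset V)ᶜ))) +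
        wd K s (wd K a (bc K ∅ (ind ({x, s, a} : Finset V)ᶜ))) -
        (wd K a (wd K b (bc K ∅ (ind ({x, a, b} : Finset V)ᶜ))) - wd K s (wd K b (bc K ∅ (ind ({x, s, b} : Finset V)ᶜ)))
          + wd K s (wd K a (bc K ∅ (ind ({x, s, a} : Finset V)ᶜ)))) =
        wd K s (wd K b (bc K ∅ (ind ({x, s, b} : Finset V)ᶜ))) := by abel
    rw [h4] at h3
    exact h3

/-- The alternating function of the squarefree chains with three exterior factors. -/
def psi (K : Type*) [Field K] (NF : Finset V → Prop) (s t u : V) : Ch V K ⧸ Bd K NF :=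
  (Bd K NF).mkQ (wd K s (wd K t (wd K u (bc K ∅ (ind ({s, t, u} : Finset V)ᶜ)))))

theorem psi_swap12 (NF : Finset V → Prop) (s t u : V) : psi K NF s t u = - psi K NF t s u := by
  unfold psi
  rw [wd_anti s t, Finset.insert_comm s t, map_neg]

theorem psi_swap23 (NF : Finset V → Prop) (s t u : V) : psi K NF s t u = - psi K NF s u t := by
  unfold psi
  rw [wd_anti t u, Finset.pair_comm t u, map_neg, map_neg]

theorem psi_self (NF : Finset V → Prop) (s u : V) : psi K NF s s u = 0 := by
  unfold psi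
  rw [wd_wd_self, map_zero]

theorem psi_face (NF : Finset V → Prop) (s t u : V) (h : NF ({s, t, u} : Finset V)ᶜ) : psi K NF s t u = 0 := by
  unfold psi
  rw [Submodule.mkQ_apply, Submodule.Quotient.mk_eq_zero]
  exact CI_le_Bd NF _ (wd_mem_CI NF _ _ (wd_mem_CI NF _ _ (wd_mem_CI NF _ _
    (bc_mem_CI NF _ _ (by rw [ind_support]; exact h)))))

theorem psi_cocycle (NF : Finset V → Prop) (s t u v : V) :
    psi K NF t u v - psi K NF s u v + psi K NF s t v - psi K NF s t u = 0 := by
  have hself23 : ∀ a b, psi K NF a b b = 0 := by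
    intro a b
    rw [psi_swap12 NF a b b, psi_swap23 NF b a b, psi_self, neg_zero, neg_zero]
  have hself13 : ∀ a b, psi K NF a b a = 0 := by
    intro a b
    rw [psi_swap23 NF a b a, psi_self, neg_zero]
  by_cases hst : s = t
  · subst hst
    rw [psi_self, psi_self]
    abel
  by_cases hsu : s = u
  · subst hsu
    rw [psi_self, hself13, psi_swap12 NF t s v]
    abel
  by_cases hsv : s = v
  · subst hsv
    rw [hself13, hself13, psi_swap23 NF t u s, psi_swap12 NF t s u]
    abel
  by_cases htu : t = u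
  · subst htu
    rw [psi_self, hself23]
    abel
  by_cases htv : t = v
  · subst htv
    rw [hself13, hself23, psi_swap23 NF s u t]
    abel
  by_cases huv : u = v
  · subst huv
    rw [hself23, hself23]
    abel
  have h1 := dd_mem_Bd NF (wd K s (wd K t (wd K u (wd K v (bc K ∅ (ind ({s, t, u, v} : Finset V)ᶜ))))))
  have e1 : ({s, t, u, v} : Finset V).erase s = {t, u, v} := by
    ext c
    simp only [Finset.mem_erase, Finset.mem_insert, Finset.mem_singleton]
    constructor
    · rintro ⟨h2, h3⟩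
      tauto
    · rintro (rfl | rfl | rfl)
      · exact ⟨fun h => hst h.symm, Or.inr (Or.inl rfl)⟩
      · exact ⟨fun h => hsu h.symm, Or.inr (Or.inr (Or.inl rfl))⟩
      · exact ⟨fun h => hsv h.symm, Or.inr (Or.inr (Or.inr rfl))⟩
  have e2 : ({s, t, u, v} : Finset V).erase t = {s, u, v} := by
    ext c
    simp only [Finset.mem_erase, Finset.mem_insert, Finset.mem_singleton]
    constructor
    · rintro ⟨h2, h3⟩
      tauto
    · rintro (rfl | rfl | rfl)
      · exact ⟨fun h => hst h, Or.inl rfl⟩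
      · exact ⟨fun h => htu h.symm, Or.inr (Or.inr (Or.inl rfl))⟩
      · exact ⟨fun h => htv h.symm, Or.inr (Or.inr (Or.inr rfl))⟩
  have e3 : ({s, t, u, v} : Finset V).erase u = {s, t, v} := by
    ext c
    simp only [Finset.mem_erase, Finset.mem_insert, Finset.mem_singleton]
    constructor
    · rintro ⟨h2, h3⟩
      tauto
    · rintro (rfl | rfl | rfl)
      · exact ⟨fun h => hsu h, Or.inl rfl⟩
      · exact ⟨fun h => htu h, Or.inr (Or.inl rfl)⟩
      · exact ⟨fun h => huv h.symm, Or.inr (Or.inr (Or.inr rfl))⟩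
  have e4 : ({s, t, u, v} : Finset V).erase v = {s, t, u} := by
    ext c
    simp only [Finset.mem_erase, Finset.mem_insert, Finset.mem_singleton]
    constructor
    · rintro ⟨h2, h3⟩
      tauto
    · rintro (rfl | rfl | rfl)
      · exact ⟨fun h => hsv h, Or.inl rfl⟩
      · exact ⟨fun h => htv h, Or.inr (Or.inl rfl)⟩
      · exact ⟨fun h => huv h, Or.inr (Or.inr (Or.inl rfl))⟩
  rw [dd_wd4, xm_ind s ∅ _ (by simp), xm_ind t ∅ _ (by simp), xm_ind u ∅ _ (by simp), xm_ind v ∅ _ (by simp),
    e1, e2, e3, e4] at h1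
  have h2 := (Submodule.Quotient.mk_eq_zero _).mpr h1
  unfold psi
  rw [← map_sub, ← map_add, ← map_sub]
  exact h2

/-- The squarefree chains are boundaries. -/
theorem hSF_of (NF : Finset V → Prop) (hn : 4 ≤ Fintype.card V)
    (hT : ∀ x y, x ≠ y → ∃ s, s ≠ x ∧ s ≠ y ∧ NF ({x, y, s} : Finset V)ᶜ)
    (hL : ∀ x s t, s ≠ x → t ≠ x → Relation.ReflTransGen (fun a b => b ≠ x ∧ NF ({x, a, b} : Finset V)ᶜ) s t)
    (hH : ∀ s t u, psi K NF s t u = 0)
    (T Q : Finset V) (hTQ : T ⊆ Q) (hQ : Q.card = 3) : bc K T (ind Qᶜ) ∈ Bd K NF := by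
  obtain ⟨x, y, z, hxy, hxz, hyz, rfl⟩ := Finset.card_eq_three.mp hQ
  have h0 : T.card ≤ 3 := hQ ▸ Finset.card_le_card hTQ
  rcases Nat.lt_or_ge T.card 1 with hc | hc
  · have hT0 : T = ∅ := Finset.card_eq_zero.mp (by omega)
    rw [hT0]
    exact sf0 NF hn _ hQ
  rcases Nat.lt_or_ge T.card 2 with hc1 | hc1
  · obtain ⟨t, rfl⟩ := Finset.card_eq_one.mp (show T.card = 1 by omega)
    have key : ∀ a b c : V, a ≠ b → a ≠ c → b ≠ c → bc K {c} (ind ({a, b, c} : Finset V)ᶜ) ∈ Bd K NF := by
      intro a b c hab hac hbc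
      rw [bc_singleton]
      exact zsmul_mem (sf1 NF hT c a b hac.symm hbc.symm hab) _
    have ht := hTQ (Finset.mem_singleton_self t)
    rw [Finset.mem_insert, Finset.mem_insert, Finset.mem_singleton] at ht
    rcases ht with rfl | rfl | rfl
    · have e : ({t, y, z} : Finset V) = {y, z, t} := by
        ext a
        simp only [Finset.mem_insert, Finset.mem_singleton]
        tauto
      rw [e]
      exact key y z t hyz hxy.symm hxz.symm
    · have e : ({x, t, z} : Finset V) = {x, z, t} := by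
        ext a
        simp only [Finset.mem_insert, Finset.mem_singleton]
        tauto
      rw [e]
      exact key x z t hxz hxy hyz.symm
    · exact key x y t hxy hxz hyz
  rcases Nat.lt_or_ge T.card 3 with hc2 | hc2
  · obtain ⟨s, t, hst, rfl⟩ := Finset.card_eq_two.mp (show T.card = 2 by omega)
    -- the third element
    have h5 : (({x, y, z} : Finset V) \ {s, t}).card = 1 := by
      rw [Finset.card_sdiff_of_subset hTQ, hQ, Finset.card_pair hst]
    obtain ⟨r, hr⟩ := Finset.card_eq_one.mp h5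
    have hr1 : r ∈ ({x, y, z} : Finset V) \ {s, t} := by
      rw [hr]
      exact Finset.mem_singleton_self r
    simp only [Finset.mem_sdiff, Finset.mem_insert, Finset.mem_singleton, not_or] at hr1
    have e : ({x, y, z} : Finset V) = {r, s, t} := by
      rw [← Finset.sdiff_union_of_subset hTQ, hr, Finset.singleton_union]
    rw [e, bc_insert s {t} _ (fun h => hst (Finset.mem_singleton.mp h)), bc_singleton, map_zsmul]
    exact zsmul_mem (zsmul_mem (sf2 NF r s t (fun h => hr1.2.1 h.symm) (fun h => hr1.2.2 h.symm)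
      (hL r s t (fun h => hr1.2.1 h.symm) (fun h => hr1.2.2 h.symm))) _) _
  · have hTe : T = {x, y, z} := Finset.eq_of_subset_of_card_le hTQ (by rw [hQ]; exact hc2)
    rw [hTe, bc_insert x {y, z} _ (by
        rw [Finset.mem_insert, Finset.mem_singleton]
        push Not
        exact ⟨hxy, hxz⟩), bc_insert y {z} _ (fun h => hyz (Finset.mem_singleton.mp h)),
      bc_singleton, map_zsmul, map_zsmul, map_zsmul]
    have h6 := hH x y z
    unfold psi at h6
    rw [Submodule.mkQ_apply, Submodule.Quotient.mk_eq_zero] at h6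
    exact zsmul_mem (zsmul_mem (zsmul_mem h6 _) _) _

end

end Pool.Agent.helper35.VN
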