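import Mathlib

set_option autoImplicit false

/-!
# The graph of a pair of nets

`τ` is a fixed point free involution of the grid `I × J`. The vertices are the points of the grid, its rows, its
columns and one more vertex `w`. Two points `x`, `τ x` are adjacent, each point is adjacent to its row and its column and
to `w`, each row is adjacent to each column.
-/

namespace Pool.Agent.helper35.VN

/-- The vertices. -/
inductive Vt (I J : Type) : Type
  | d (x : I × J)
  | a (i : I)
  | b (j : J)
  | w
  deriving DecidableEq, Fintype

variable {I J : Type}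

/-- The adjacency of the graph `H`. -/
def HAdj (τ : I × J → I × J) : Vt I J → Vt I J → Prop
  | .d x, .d y => y = τ x
  | .d x, .a i => x.1 = i
  | .d x, .b j => x.2 = j
  | .d _, .w => True
  | .a i, .d x => x.1 = i
  | .a _, .a _ => False
  | .a _, .b _ => True
  | .a _, .w => False
  | .b j, .d x => x.2 = j
  | .b _, .a _ => True
  | .b _, .b _ => False
  | .b _, .w => False
  | .w, .d _ => True
  | .w, .a _ => False
  | .w, .b _ => False
  | .w, .w => False

/-- The conditions on `τ`. -/
structure Good (τ : I × J → I × J) : Prop where
  inv : ∀ x, τ (τ x) = x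
  fix : ∀ x, τ x ≠ x
  p1 : ∀ x y : I × J, x.1 = y.1 → (τ x).2 = (τ y).2 → x = y
  p2 : ∀ x y : I × J, x.2 = y.2 → (τ x).1 = (τ y).1 → x = y

variable {τ : I × J → I × J}

theorem HAdj_irrefl (hτ : Good τ) (v : Vt I J) : ¬ HAdj τ v v := by
  cases v with
  | d x => exact fun h => hτ.fix x h.symm
  | a i => exact fun h => h
  | b j => exact fun h => h
  | w => exact fun h => h

theorem HAdj_symm (hτ : Good τ) (u v : Vt I J) (h : HAdj τ u v) : HAdj τ v u := by
  cases u with
  | d x =>
    cases v with
    | d y =>
      change x = τ y
      have h1 : y = τ x := h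
      rw [h1, hτ.inv]
    | a i => exact h
    | b j => exact h
    | w => exact h
  | a i => cases v <;> exact h
  | b j => cases v <;> exact h
  | w => cases v <;> exact h

/-- Links of vertices are flag complexes. -/
theorem flag [Nonempty I] [Nonempty J] (hτ : Good τ) (S : Set (Vt I J)) (o : Vt I J)
    (h : ∀ x ∈ S, ∀ y ∈ S, ∃ v, HAdj τ v o ∧ HAdj τ v x ∧ HAdj τ v y) (ho : o ∈ S) :
    ∃ v, ∀ u ∈ S, HAdj τ v u := by
  classical
  cases o with
  | w =>
    by_cases hd : ∃ y, Vt.d y ∈ S
    · obtain ⟨y, hy⟩ := hd
      refine ⟨.d (τ y), fun u hu => ?_⟩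
      obtain ⟨v, h1, h2, h3⟩ := h _ hy u hu
      cases v with
      | d z =>
        have h4 : y = τ z := h2
        have h5 : τ y = z := by rw [h4, hτ.inv]
        rw [h5]
        exact h3
      | a i => exact h1.elim
      | b j => exact h1.elim
      | w => exact h1.elim
    · obtain ⟨i0, hi0⟩ : ∃ i0, ∀ i, Vt.a i ∈ S → i0 = i := by
        by_cases ha : ∃ i, Vt.a i ∈ S
        · obtain ⟨i, hi⟩ := ha
          refine ⟨i, fun i' hi' => ?_⟩
          obtain ⟨v, h1, h2, h3⟩ := h _ hi _ hi'
          cases v with
          | d z =>
            have h4 : z.1 = i := h2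
            have h5 : z.1 = i' := h3
            rw [← h4, h5]
          | a i => exact h1.elim
          | b j => exact h1.elim
          | w => exact h1.elim
        · exact ⟨Classical.arbitrary I, fun i hi => (ha ⟨i, hi⟩).elim⟩
      obtain ⟨j0, hj0⟩ : ∃ j0, ∀ j, Vt.b j ∈ S → j0 = j := by
        by_cases ha : ∃ j, Vt.b j ∈ S
        · obtain ⟨j, hj⟩ := ha
          refine ⟨j, fun j' hj' => ?_⟩
          obtain ⟨v, h1, h2, h3⟩ := h _ hj _ hj'
          cases v with
          | d z =>
            have h4 : z.2 = j := h2
            have h5 : z.2 = j' := h3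
            rw [← h4, h5]
          | a i => exact h1.elim
          | b j => exact h1.elim
          | w => exact h1.elim
        · exact ⟨Classical.arbitrary J, fun j hj => (ha ⟨j, hj⟩).elim⟩
      refine ⟨.d (i0, j0), fun u hu => ?_⟩
      cases u with
      | d y => exact (hd ⟨y, hu⟩).elim
      | a i => exact hi0 i hu
      | b j => exact hj0 j hu
      | w => trivial
  | d y =>
    by_cases hw : Vt.w ∈ S
    · refine ⟨.d (τ y), fun u hu => ?_⟩
      obtain ⟨v, h1, h2, h3⟩ := h _ hw u hu
      cases v with
      | d z =>
        have h4 : y = τ z := h1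
        have h5 : τ y = z := by rw [h4, hτ.inv]
        rw [h5]
        exact h3
      | a i => exact h2.elim
      | b j => exact h2.elim
      | w => exact h2.elim
    have hda : ∀ z i, Vt.d z ∈ S → Vt.a i ∈ S → z.2 = y.2 := by
      intro z i hz hi
      obtain ⟨v, h1, h2, h3⟩ := h _ hz _ hi
      cases v with
      | d x =>
        have h4 : y = τ x := h1
        have h5 : z = τ x := h2
        rw [h4, h5]
      | a i => exact h3.elim
      | b j =>
        have h4 : y.2 = j := h1
        have h5 : z.2 = j := h2
        rw [h4, h5]
      | w => exact h3.elim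
    have hdb : ∀ z j, Vt.d z ∈ S → Vt.b j ∈ S → z.1 = y.1 := by
      intro z i hz hi
      obtain ⟨v, h1, h2, h3⟩ := h _ hz _ hi
      cases v with
      | d x =>
        have h4 : y = τ x := h1
        have h5 : z = τ x := h2
        rw [h4, h5]
      | a i =>
        have h4 : y.1 = i := h1
        have h5 : z.1 = i := h2
        rw [h4, h5]
      | b j => exact h3.elim
      | w => exact h3.elim
    by_cases ha : ∃ i, Vt.a i ∈ S
    · obtain ⟨i, hi⟩ := ha
      by_cases hb : ∃ j, Vt.b j ∈ S
      · obtain ⟨j, hj⟩ := hb
        refine ⟨.d (τ y), fun u hu => ?_⟩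
        have hab : ∀ i' j', Vt.a i' ∈ S → Vt.b j' ∈ S → (τ y).1 = i' ∧ (τ y).2 = j' := by
          intro i' j' hi' hj'
          obtain ⟨v, h1, h2, h3⟩ := h _ hi' _ hj'
          cases v with
          | d x =>
            have h4 : y = τ x := h1
            have h5 : τ y = x := by rw [h4, hτ.inv]
            rw [h5]
            exact ⟨h2, h3⟩
          | a i => exact h2.elim
          | b j => exact h3.elim
          | w => exact h2.elim
        cases u with
        | d z =>
          have h6 : z = y := Prod.ext (hdb z j hu hj) (hda z i hu hi)
          rw [h6]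
          exact (hτ.inv y).symm
        | a i' => exact (hab i' j hu hj).1
        | b j' => exact (hab i j' hi hu).2
        | w => exact (hw hu).elim
      · refine ⟨.b y.2, fun u hu => ?_⟩
        cases u with
        | d z => exact hda z i hu hi
        | a i' => trivial
        | b j' => exact (hb ⟨j', hu⟩).elim
        | w => exact (hw hu).elim
    · by_cases hb : ∃ j, Vt.b j ∈ S
      · obtain ⟨j, hj⟩ := hb
        refine ⟨.a y.1, fun u hu => ?_⟩
        cases u with
        | d z => exact hdb z j hu hj
        | a i' => exact (ha ⟨i', hu⟩).elim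
        | b j' => trivial
        | w => exact (hw hu).elim
      · refine ⟨.w, fun u hu => ?_⟩
        cases u with
        | d z => trivial
        | a i' => exact (ha ⟨i', hu⟩).elim
        | b j' => exact (hb ⟨j', hu⟩).elim
        | w => exact (hw hu).elim
  | a i =>
    by_cases hx0 : ∃ x0 ∈ S, ∀ v, HAdj τ v x0 → HAdj τ v (.a i) → ∃ z, v = .d z ∧ z.1 = i
    · obtain ⟨x0, hx0, hx0v⟩ := hx0
      by_cases hd : ∃ y, Vt.d y ∈ S
      · obtain ⟨y, hy⟩ := hd
        have hdi : ∀ y', Vt.d y' ∈ S → (τ y').1 = i := by
          intro y' hy'
          obtain ⟨v, h1, h2, h3⟩ := h _ hx0 _ hy'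
          obtain ⟨z, rfl, hz⟩ := hx0v v h2 h1
          have h4 : y' = τ z := h3
          rw [h4, hτ.inv, hz]
        refine ⟨.d (τ y), fun u hu => ?_⟩
        cases u with
        | d y' =>
          have h4 : y = y' := by
            obtain ⟨v, h1, h2, h3⟩ := h _ hy _ hu
            cases v with
            | d z =>
              have h5 : y = τ z := h2
              have h6 : y' = τ z := h3
              rw [h5, h6]
            | a i => exact h1.elim
            | b j =>
              have h5 : y.2 = j := h2
              have h6 : y'.2 = j := h3
              exact hτ.p2 y y' (h5.trans h6.symm) ((hdi y hy).trans (hdi y' hu).symm)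
            | w => exact h1.elim
          rw [← h4]
          exact (hτ.inv y).symm
        | a i' =>
          obtain ⟨v, h1, h2, h3⟩ := h _ hx0 _ hu
          obtain ⟨z, rfl, hz⟩ := hx0v v h2 h1
          have h4 : z.1 = i' := h3
          change (τ y).1 = i'
          rw [hdi y hy, ← hz, h4]
        | b j' =>
          obtain ⟨v, h1, h2, h3⟩ := h _ hy _ hu
          cases v with
          | d z =>
            have h5 : y = τ z := h2
            have h6 : τ y = z := by rw [h5, hτ.inv]
            rw [h6]
            exact h3
          | a i => exact h1.elim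
          | b j => exact h3.elim
          | w => exact h1.elim
        | w => trivial
      · obtain ⟨j0, hj0⟩ : ∃ j0, ∀ j, Vt.b j ∈ S → j0 = j := by
          by_cases ha : ∃ j, Vt.b j ∈ S
          · obtain ⟨j, hj⟩ := ha
            refine ⟨j, fun j' hj' => ?_⟩
            obtain ⟨v, h1, h2, h3⟩ := h _ hj _ hj'
            cases v with
            | d z =>
              have h4 : z.2 = j := h2
              have h5 : z.2 = j' := h3
              rw [← h4, h5]
            | a i => exact h1.elim
            | b j => exact h2.elim
            | w => exact h1.elim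
          · exact ⟨Classical.arbitrary J, fun j hj => (ha ⟨j, hj⟩).elim⟩
        refine ⟨.d (i, j0), fun u hu => ?_⟩
        cases u with
        | d y => exact (hd ⟨y, hu⟩).elim
        | a i' =>
          obtain ⟨v, h1, h2, h3⟩ := h _ hx0 _ hu
          obtain ⟨z, rfl, hz⟩ := hx0v v h2 h1
          have h4 : z.1 = i' := h3
          change i = i'
          rw [← hz, h4]
        | b j => exact hj0 j hu
        | w => trivial
    · have hw : Vt.w ∉ S := by
        intro hw
        refine hx0 ⟨_, hw, fun v h1 h2 => ?_⟩
        cases v with
        | d z => exact ⟨z, rfl, h2⟩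
        | a i => exact h1.elim
        | b j => exact h1.elim
        | w => exact h1.elim
      have hb : ∀ j, Vt.b j ∉ S := by
        intro j hj
        refine hx0 ⟨_, hj, fun v h1 h2 => ?_⟩
        cases v with
        | d z => exact ⟨z, rfl, h2⟩
        | a i => exact h2.elim
        | b j => exact h1.elim
        | w => exact h1.elim
      by_cases hd : ∃ y, Vt.d y ∈ S
      · obtain ⟨y, hy⟩ := hd
        refine ⟨.b y.2, fun u hu => ?_⟩
        cases u with
        | d y' =>
          obtain ⟨v, h1, h2, h3⟩ := h _ hy _ hu
          cases v with
          | d z =>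
            have h5 : y = τ z := h2
            have h6 : y' = τ z := h3
            change y'.2 = y.2
            rw [h5, h6]
          | a i => exact h1.elim
          | b j =>
            have h5 : y.2 = j := h2
            have h6 : y'.2 = j := h3
            change y'.2 = y.2
            rw [h5, h6]
          | w => exact h1.elim
        | a i' => trivial
        | b j' => exact (hb j' hu).elim
        | w => exact (hw hu).elim
      · refine ⟨.b (Classical.arbitrary J), fun u hu => ?_⟩
        cases u with
        | d y' => exact (hd ⟨y', hu⟩).elim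
        | a i' => trivial
        | b j' => exact (hb j' hu).elim
        | w => exact (hw hu).elim
  | b j =>
    by_cases hx0 : ∃ x0 ∈ S, ∀ v, HAdj τ v x0 → HAdj τ v (.b j) → ∃ z, v = .d z ∧ z.2 = j
    · obtain ⟨x0, hx0, hx0v⟩ := hx0
      by_cases hd : ∃ y, Vt.d y ∈ S
      · obtain ⟨y, hy⟩ := hd
        have hdi : ∀ y', Vt.d y' ∈ S → (τ y').2 = j := by
          intro y' hy'
          obtain ⟨v, h1, h2, h3⟩ := h _ hx0 _ hy'
          obtain ⟨z, rfl, hz⟩ := hx0v v h2 h1
          have h4 : y' = τ z := h3
          rw [h4, hτ.inv, hz]
        refine ⟨.d (τ y), fun u hu => ?_⟩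
        cases u with
        | d y' =>
          have h4 : y = y' := by
            obtain ⟨v, h1, h2, h3⟩ := h _ hy _ hu
            cases v with
            | d z =>
              have h5 : y = τ z := h2
              have h6 : y' = τ z := h3
              rw [h5, h6]
            | a i =>
              have h5 : y.1 = i := h2
              have h6 : y'.1 = i := h3
              exact hτ.p1 y y' (h5.trans h6.symm) ((hdi y hy).trans (hdi y' hu).symm)
            | b j => exact h1.elim
            | w => exact h1.elim
          rw [← h4]
          exact (hτ.inv y).symm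
        | b i' =>
          obtain ⟨v, h1, h2, h3⟩ := h _ hx0 _ hu
          obtain ⟨z, rfl, hz⟩ := hx0v v h2 h1
          have h4 : z.2 = i' := h3
          change (τ y).2 = i'
          rw [hdi y hy, ← hz, h4]
        | a j' =>
          obtain ⟨v, h1, h2, h3⟩ := h _ hy _ hu
          cases v with
          | d z =>
            have h5 : y = τ z := h2
            have h6 : τ y = z := by rw [h5, hτ.inv]
            rw [h6]
            exact h3
          | a i => exact h3.elim
          | b j => exact h1.elim
          | w => exact h1.elim
        | w => trivial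
      · obtain ⟨j0, hj0⟩ : ∃ j0, ∀ j, Vt.a j ∈ S → j0 = j := by
          by_cases ha : ∃ j, Vt.a j ∈ S
          · obtain ⟨j, hj⟩ := ha
            refine ⟨j, fun j' hj' => ?_⟩
            obtain ⟨v, h1, h2, h3⟩ := h _ hj _ hj'
            cases v with
            | d z =>
              have h4 : z.1 = j := h2
              have h5 : z.1 = j' := h3
              rw [← h4, h5]
            | a i => exact h2.elim
            | b j => exact h1.elim
            | w => exact h1.elim
          · exact ⟨Classical.arbitrary I, fun j hj => (ha ⟨j, hj⟩).elim⟩
        refine ⟨.d (j0, j), fun u hu => ?_⟩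
        cases u with
        | d y => exact (hd ⟨y, hu⟩).elim
        | b i' =>
          obtain ⟨v, h1, h2, h3⟩ := h _ hx0 _ hu
          obtain ⟨z, rfl, hz⟩ := hx0v v h2 h1
          have h4 : z.2 = i' := h3
          change j = i'
          rw [← hz, h4]
        | a j => exact hj0 j hu
        | w => trivial
    · have hw : Vt.w ∉ S := by
        intro hw
        refine hx0 ⟨_, hw, fun v h1 h2 => ?_⟩
        cases v with
        | d z => exact ⟨z, rfl, h2⟩
        | a i => exact h1.elim
        | b j => exact h1.elim
        | w => exact h1.elim
      have hb : ∀ i, Vt.a i ∉ S := by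
        intro i hi
        refine hx0 ⟨_, hi, fun v h1 h2 => ?_⟩
        cases v with
        | d z => exact ⟨z, rfl, h2⟩
        | a i => exact h1.elim
        | b j => exact h2.elim
        | w => exact h1.elim
      by_cases hd : ∃ y, Vt.d y ∈ S
      · obtain ⟨y, hy⟩ := hd
        refine ⟨.a y.1, fun u hu => ?_⟩
        cases u with
        | d y' =>
          obtain ⟨v, h1, h2, h3⟩ := h _ hy _ hu
          cases v with
          | d z =>
            have h5 : y = τ z := h2
            have h6 : y' = τ z := h3
            change y'.1 = y.1
            rw [h5, h6]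
          | a j =>
            have h5 : y.1 = j := h2
            have h6 : y'.1 = j := h3
            change y'.1 = y.1
            rw [h5, h6]
          | b j => exact h1.elim
          | w => exact h1.elim
        | b i' => trivial
        | a j' => exact (hb j' hu).elim
        | w => exact (hw hu).elim
      · refine ⟨.a (Classical.arbitrary I), fun u hu => ?_⟩
        cases u with
        | d y' => exact (hd ⟨y', hu⟩).elim
        | b i' => trivial
        | a j' => exact (hb j' hu).elim
        | w => exact (hw hu).elim

/-- Any two vertices have a common neighbour. -/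
theorem pair [Nonempty I] [Nonempty J] (hτ : Good τ) (x y : Vt I J) : ∃ v, HAdj τ v x ∧ HAdj τ v y := by
  cases x with
  | d x =>
    cases y with
    | d y => exact ⟨.w, trivial, trivial⟩
    | a i => exact ⟨.b x.2, rfl, trivial⟩
    | b j => exact ⟨.a x.1, rfl, trivial⟩
    | w => exact ⟨.d (τ x), (hτ.inv x).symm, trivial⟩
  | a i =>
    cases y with
    | d y => exact ⟨.b y.2, trivial, rfl⟩
    | a i' => exact ⟨.b (Classical.arbitrary J), trivial, trivial⟩
    | b j => exact ⟨.d (i, j), rfl, rfl⟩
    | w => exact ⟨.d (i, Classical.arbitrary J), rfl, trivial⟩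
  | b j =>
    cases y with
    | d y => exact ⟨.a y.1, trivial, rfl⟩
    | a i' => exact ⟨.d (i', j), rfl, rfl⟩
    | b j' => exact ⟨.a (Classical.arbitrary I), trivial, trivial⟩
    | w => exact ⟨.d (Classical.arbitrary I, j), rfl, trivial⟩
  | w =>
    cases y with
    | d y => exact ⟨.d (τ y), trivial, (hτ.inv y).symm⟩
    | a i' => exact ⟨.d (i', Classical.arbitrary J), trivial, rfl⟩
    | b j' => exact ⟨.d (Classical.arbitrary I, j'), trivial, rfl⟩
    | w => exact ⟨.d (Classical.arbitrary I, Classical.arbitrary J), trivial, trivial⟩

end Pool.Agent.helper35.VN
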