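import Pool.Agent.helper35.VN.TauA

set_option autoImplicit false

/-!
# The neighbourhood complex of the graph of a pair of nets: links and first cohomology
-/

namespace Pool.Agent.helper35.VN

variable {I J : Type} {τ : I × J → I × J}

/-- Three vertices with a common neighbour. -/
def Fc (τ : I × J → I × J) (x y z : Vt I J) : Prop := ∃ v, HAdj τ v x ∧ HAdj τ v y ∧ HAdj τ v z

theorem three [Nontrivial I] [Nontrivial J] (v : Vt I J) : ∃ p q r, p ≠ q ∧ p ≠ r ∧ q ≠ r ∧
    HAdj τ v p ∧ HAdj τ v q ∧ HAdj τ v r := by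
  obtain ⟨i0, i1, hi⟩ := exists_pair_ne I
  obtain ⟨j0, j1, hj⟩ := exists_pair_ne J
  cases v with
  | d z => exact ⟨.w, .a z.1, .b z.2, by simp, by simp, by simp, trivial, rfl, rfl⟩
  | a i => exact ⟨.b j0, .b j1, .d (i, j0), by simpa using hj, by simp, by simp, trivial, trivial, rfl⟩
  | b j => exact ⟨.a i0, .a i1, .d (i0, j), by simpa using hi, by simp, by simp, trivial, trivial, rfl⟩
  | w => exact ⟨.d (i0, j0), .d (i0, j1), .d (i1, j0), by simpa using hj, by simpa using hi,
      by simp [hi], trivial, trivial, trivial⟩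

theorem tri [Nontrivial I] [Nontrivial J] (hτ : Good τ) (x y : Vt I J) :
    ∃ s, s ≠ x ∧ s ≠ y ∧ Fc τ x y s := by
  obtain ⟨v, hx, hy⟩ := pair hτ x y
  obtain ⟨p, q, r, hpq, hpr, hqr, hp, hq, hr⟩ := three (τ := τ) v
  by_cases h1 : p ≠ x ∧ p ≠ y
  · exact ⟨p, h1.1, h1.2, v, hx, hy, hp⟩
  by_cases h2 : q ≠ x ∧ q ≠ y
  · exact ⟨q, h2.1, h2.2, v, hx, hy, hq⟩
  by_cases h3 : r ≠ x ∧ r ≠ y
  · exact ⟨r, h3.1, h3.2, v, hx, hy, hr⟩
  exfalso
  have h1' : p = x ∨ p = y := by tauto
  have h2' : q = x ∨ q = y := by tauto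
  have h3' : r = x ∨ r = y := by tauto
  rcases h1' with rfl | rfl <;> rcases h2' with rfl | rfl <;> rcases h3' with rfl | rfl <;> simp_all

/-- Adjacency in the link of `x`. -/
def Lk (τ : I × J → I × J) (x s t : Vt I J) : Prop := s ≠ x ∧ t ≠ x ∧ Fc τ x s t

theorem Lk_symm (x s t : Vt I J) (h : Lk τ x s t) : Lk τ x t s := by
  obtain ⟨h1, h2, v, h3, h4, h5⟩ := h
  exact ⟨h2, h1, v, h3, h5, h4⟩

theorem rtg_symm {α : Type*} {r : α → α → Prop} (hr : ∀ a b, r a b → r b a) {a b : α}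
    (h : Relation.ReflTransGen r a b) : Relation.ReflTransGen r b a := by
  induction h with
  | refl => exact Relation.ReflTransGen.refl
  | tail _ hbc ih => exact Relation.ReflTransGen.head (hr _ _ hbc) ih

theorem conn [Nontrivial I] [Nontrivial J] (hτ : Good τ) (x s t : Vt I J) (hs : s ≠ x) (ht : t ≠ x) :
    Relation.ReflTransGen (Lk τ x) s t := by
  have key : ∃ o, ∀ s, s ≠ x → Relation.ReflTransGen (Lk τ x) s o := by
    obtain ⟨i0, i1, hi⟩ := exists_pair_ne I
    obtain ⟨j0, j1, hj⟩ := exists_pair_ne J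
    cases x with
    | w =>
      have hb : ∀ j, Lk τ .w (.b j) (.a i0) := fun j => ⟨by simp, by simp, .d (i0, j), trivial, rfl, rfl⟩
      have ha : ∀ i, Relation.ReflTransGen (Lk τ .w) (.a i) (.a i0) := fun i =>
        Relation.ReflTransGen.head (show Lk τ .w (.a i) (.b j0) from ⟨by simp, by simp, .d (i, j0), trivial, rfl, rfl⟩)
          (Relation.ReflTransGen.single (hb j0))
      refine ⟨.a i0, fun s hs => ?_⟩
      cases s with
      | d y =>
        exact Relation.ReflTransGen.head (show Lk τ .w (.d y) (.a (τ y).1) from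
          ⟨by simp, by simp, .d (τ y), trivial, (hτ.inv y).symm, rfl⟩) (ha _)
      | a i => exact ha i
      | b j => exact Relation.ReflTransGen.single (hb j)
      | w => exact (hs rfl).elim
    | d y =>
      obtain ⟨j', hj'⟩ := exists_ne y.2
      obtain ⟨i', hi'⟩ := exists_ne y.1
      have n1 : (Vt.d (y.1, j') : Vt I J) ≠ .d y := by
        intro h
        exact hj' (congrArg Prod.snd (Vt.d.inj h))
      have n2 : (Vt.d (i', y.2) : Vt I J) ≠ .d y := by
        intro h
        exact hi' (congrArg Prod.fst (Vt.d.inj h))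
      have hd : ∀ z, (Vt.d z : Vt I J) ≠ .d y → Lk τ (.d y) (.d z) (.d (y.1, j')) := fun z hz =>
        ⟨hz, n1, .w, trivial, trivial, trivial⟩
      have ha : ∀ i, Relation.ReflTransGen (Lk τ (.d y)) (.a i) (.d (y.1, j')) := fun i =>
        Relation.ReflTransGen.head (show Lk τ (.d y) (.a i) (.d (i', y.2)) from ⟨by simp, n2, .b y.2, rfl, trivial, rfl⟩)
          (Relation.ReflTransGen.single (hd _ n2))
      refine ⟨.d (y.1, j'), fun s hs => ?_⟩
      cases s with
      | d z => exact Relation.ReflTransGen.single (hd z hs)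
      | a i => exact ha i
      | b j => exact Relation.ReflTransGen.single ⟨by simp, n1, .a y.1, rfl, trivial, rfl⟩
      | w =>
        exact Relation.ReflTransGen.head (show Lk τ (.d y) .w (.a (τ y).1) from
          ⟨by simp, by simp, .d (τ y), (hτ.inv y).symm, trivial, rfl⟩) (ha _)
    | a i =>
      obtain ⟨i', hi'⟩ := exists_ne i
      have n1 : (Vt.a i' : Vt I J) ≠ .a i := by
        intro h
        exact hi' (Vt.a.inj h)
      have hd : ∀ z, Lk τ (.a i) (.d z) (.a i') := fun z =>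
        ⟨by simp, n1, .b z.2, trivial, rfl, trivial⟩
      refine ⟨.a i', fun s hs => ?_⟩
      cases s with
      | d z => exact Relation.ReflTransGen.single (hd z)
      | a i'' => exact Relation.ReflTransGen.single ⟨hs, n1, .b j0, trivial, trivial, trivial⟩
      | b j =>
        exact Relation.ReflTransGen.head (show Lk τ (.a i) (.b j) (.d (τ (i, j))) from
          ⟨by simp, by simp, .d (i, j), rfl, rfl, rfl⟩) (Relation.ReflTransGen.single (hd _))
      | w =>
        exact Relation.ReflTransGen.head (show Lk τ (.a i) .w (.d (τ (i, j0))) from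
          ⟨by simp, by simp, .d (i, j0), rfl, trivial, rfl⟩) (Relation.ReflTransGen.single (hd _))
    | b j =>
      obtain ⟨j', hj'⟩ := exists_ne j
      have n1 : (Vt.b j' : Vt I J) ≠ .b j := by
        intro h
        exact hj' (Vt.b.inj h)
      have hd : ∀ z, Lk τ (.b j) (.d z) (.b j') := fun z =>
        ⟨by simp, n1, .a z.1, trivial, rfl, trivial⟩
      refine ⟨.b j', fun s hs => ?_⟩
      cases s with
      | d z => exact Relation.ReflTransGen.single (hd z)
      | b j'' => exact Relation.ReflTransGen.single ⟨hs, n1, .a i0, trivial, trivial, trivial⟩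
      | a i =>
        exact Relation.ReflTransGen.head (show Lk τ (.b j) (.a i) (.d (τ (i, j))) from
          ⟨by simp, by simp, .d (i, j), rfl, rfl, rfl⟩) (Relation.ReflTransGen.single (hd _))
      | w =>
        exact Relation.ReflTransGen.head (show Lk τ (.b j) .w (.d (τ (i0, j))) from
          ⟨by simp, by simp, .d (i0, j), rfl, trivial, rfl⟩) (Relation.ReflTransGen.single (hd _))
  obtain ⟨o, ho⟩ := key
  refine (ho s hs).trans ?_
  exact rtg_symm (Lk_symm x) (ho t ht)

/-- The linear condition: the square complex of `τ` has no first cohomology with coefficients in `A`. -/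
def Rigid (τ : I × J → I × J) (A : Type*) [AddCommGroup A] : Prop :=
  ∀ (a1 a2 : I → A) (a3 a4 : J → A), (∀ x, a1 x.1 - a2 (τ x).1 = a3 x.2 - a4 (τ x).2) →
    (∀ i i', a1 i = a1 i') ∧ (∀ i i', a2 i = a2 i') ∧ (∀ j j', a3 j = a3 j') ∧ (∀ j j', a4 j = a4 j')

/-- The first cohomology of the neighbourhood complex is zero. -/
theorem cohom [Nonempty I] [Nonempty J] (hτ : Good τ) {A : Type*} [AddCommGroup A] (hR : Rigid τ A)
    (ψ : Vt I J → Vt I J → Vt I J → A) (h0 : ∀ s u, ψ s s u = 0)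
    (hc : ∀ s t u v, ψ t u v - ψ s u v + ψ s t v - ψ s t u = 0)
    (hf : ∀ s t u, Fc τ s t u → ψ s t u = 0) (s t u : Vt I J) : ψ s t u = 0 := by
  obtain ⟨φ, hφ⟩ : ∃ φ : Vt I J → Vt I J → A, ∀ s t, φ s t = ψ .w s t := ⟨fun s t => ψ .w s t, fun _ _ => rfl⟩
  have hψ : ∀ s t u, ψ s t u = φ t u - φ s u + φ s t := by
    intro s t u
    rw [hφ, hφ, hφ]
    have h := hc .w s t u
    have h1 : ψ s t u = (ψ s t u - ψ .w t u + ψ .w s u - ψ .w s t) + (ψ .w t u - ψ .w s u + ψ .w s t) := by abel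
    rw [h1, h, zero_add]
  have hcoc : ∀ s t u, Fc τ s t u → φ s u = φ s t + φ t u := by
    intro s t u h
    have h1 := hf s t u h
    rw [hψ] at h1
    have h2 : φ s u = φ s t + φ t u - (φ t u - φ s u + φ s t) := by abel
    rw [h2, h1, sub_zero]
  have hself : ∀ s, φ s s = 0 := by
    intro s
    obtain ⟨v, h1, h2⟩ := pair hτ s s
    have h3 := hcoc s s s ⟨v, h1, h1, h1⟩
    have h4 : φ s s = φ s s + φ s s - φ s s := by abel
    rw [← h3, sub_self] at h4
    exact h4
  have hw : ∀ t, φ .w t = 0 := fun t => by rw [hφ, h0]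
  have hwf : ∀ s t, Fc τ .w s t → φ s t = 0 := fun s t h => by rw [hφ]; exact hf _ _ _ h
  -- the potentials
  obtain ⟨d0⟩ : Nonempty (I × J) := inferInstance
  obtain ⟨g, hg⟩ : ∃ g : I × J → A, ∀ x, g x = φ (.d d0) (.d x) := ⟨fun x => φ (.d d0) (.d x), fun _ => rfl⟩
  have hgd : ∀ x y, φ (.d x) (.d y) = g y - g x := by
    intro x y
    rw [hg, hg, hcoc (.d d0) (.d x) (.d y) ⟨.w, trivial, trivial, trivial⟩]
    abel
  -- `A i j` is the potential of the column `j` computed in `N(i)`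
  obtain ⟨P, hP⟩ : ∃ P : I → J → A, ∀ x j, g x + φ (.d x) (.b j) = P x.1 j := by
    refine ⟨fun i j => g (i, d0.2) + φ (.d (i, d0.2)) (.b j), fun x j => ?_⟩
    have h1 := hcoc (.d (x.1, d0.2)) (.d x) (.b j) ⟨.a x.1, rfl, rfl, trivial⟩
    beta_reduce
    rw [h1, hgd]
    abel
  obtain ⟨Q, hQ⟩ : ∃ Q : J → I → A, ∀ x i, g x + φ (.d x) (.a i) = Q x.2 i := by
    refine ⟨fun j i => g (d0.1, j) + φ (.d (d0.1, j)) (.a i), fun x i => ?_⟩
    have h1 := hcoc (.d (d0.1, x.2)) (.d x) (.a i) ⟨.b x.2, rfl, rfl, trivial⟩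
    beta_reduce
    rw [h1, hgd]
    abel
  have hPb : ∀ i j j', φ (.b j) (.b j') = P i j' - P i j := by
    intro i j j'
    have h1 := hcoc (.d (i, d0.2)) (.b j) (.b j') ⟨.a i, rfl, trivial, trivial⟩
    have h2 := hP (i, d0.2) j
    have h3 := hP (i, d0.2) j'
    simp only at h2 h3
    rw [← h2, ← h3, h1]
    abel
  have hQa : ∀ j i i', φ (.a i) (.a i') = Q j i' - Q j i := by
    intro j i i'
    have h1 := hcoc (.d (d0.1, j)) (.a i) (.a i') ⟨.b j, rfl, trivial, trivial⟩
    have h2 := hQ (d0.1, j) i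
    have h3 := hQ (d0.1, j) i'
    simp only at h2 h3
    rw [← h2, ← h3, h1]
    abel
  have e1 : ∀ x, g x = P x.1 (τ x).2 := by
    intro x
    have h1 : φ (.d x) (.b (τ x).2) = 0 := hwf _ _ ⟨.d (τ x), trivial, (hτ.inv x).symm, rfl⟩
    rw [← hP, h1, add_zero]
  have e2 : ∀ x, g x = Q x.2 (τ x).1 := by
    intro x
    have h1 : φ (.d x) (.a (τ x).1) = 0 := hwf _ _ ⟨.d (τ x), trivial, (hτ.inv x).symm, rfl⟩
    rw [← hQ, h1, add_zero]
  have hPd : ∀ i j, P i j = P i d0.2 + (P d0.1 j - P d0.1 d0.2) := by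
    intro i j
    rw [← hPb d0.1 d0.2 j, hPb i d0.2 j]
    abel
  have hQd : ∀ j i, Q j i = Q j d0.1 + (Q d0.2 i - Q d0.2 d0.1) := by
    intro j i
    rw [← hQa d0.2 d0.1 i, hQa j d0.1 i]
    abel
  obtain ⟨r1, r2, r3, r4⟩ := hR (fun i => P i d0.2) (fun i => Q d0.2 i - Q d0.2 d0.1) (fun j => Q j d0.1)
    (fun j => P d0.1 j - P d0.1 d0.2) (fun x => by
      have h1 := e1 x
      rw [e2 x, hPd, hQd] at h1
      have h2 : P x.1 d0.2 - (Q d0.2 (τ x).1 - Q d0.2 d0.1) =
          (P x.1 d0.2 + (P d0.1 (τ x).2 - P d0.1 d0.2)) - (P d0.1 (τ x).2 - P d0.1 d0.2)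
            - (Q d0.2 (τ x).1 - Q d0.2 d0.1) := by abel
      rw [h2, ← h1]
      abel)
  -- everything is constant
  have hPc : ∀ i j, P i j = P d0.1 d0.2 := by
    intro i j
    rw [hPd i j, r1 i d0.1, r4 j d0.2]
    abel
  have hQc : ∀ j i, Q j i = Q d0.2 d0.1 := by
    intro j i
    rw [hQd j i, r3 j d0.2, r2 i d0.1]
    abel
  have hg0 : ∀ x, g x = 0 := by
    intro x
    have h1 : g d0 = 0 := by rw [hg, hself]
    rw [e1, hPc, ← hPc d0.1 (τ d0).2, ← e1, h1]
  have hP0 : ∀ i j, P i j = 0 := by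
    intro i j
    rw [hPc, ← hPc d0.1 (τ d0).2, ← e1, hg0]
  have hQ0 : ∀ j i, Q j i = 0 := by
    intro j i
    rw [hQc, ← hQc d0.2 (τ d0).1, ← e2, hg0]
  have anti : ∀ s t, φ t s = 0 → φ s t = 0 := by
    intro s t h
    obtain ⟨v, h1, h2⟩ := pair hτ s t
    have h3 := hcoc s t s ⟨v, h1, h2, h1⟩
    rw [h, hself, add_zero] at h3
    exact h3.symm
  have hdb : ∀ x j, φ (.d x) (.b j) = 0 := by
    intro x j
    have h1 := hP x j
    rw [hg0, hP0, zero_add] at h1
    exact h1
  have hda : ∀ x i, φ (.d x) (.a i) = 0 := by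
    intro x i
    have h1 := hQ x i
    rw [hg0, hQ0, zero_add] at h1
    exact h1
  have hab : ∀ i j, φ (.a i) (.b j) = 0 := fun i j => hwf _ _ ⟨.d (i, j), trivial, rfl, rfl⟩
  have hφ0 : ∀ s t, φ s t = 0 := by
    intro s t
    cases s with
    | d x =>
      cases t with
      | d y => rw [hgd, hg0, hg0, sub_zero]
      | a i => exact hda x i
      | b j => exact hdb x j
      | w => exact anti _ _ (hw _)
    | a i =>
      cases t with
      | d y => exact anti _ _ (hda y i)
      | a i' => rw [hQa d0.2, hQ0, hQ0, sub_zero]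
      | b j => exact hab i j
      | w => exact anti _ _ (hw _)
    | b j =>
      cases t with
      | d y => exact anti _ _ (hdb y j)
      | a i => exact anti _ _ (hab i j)
      | b j' => rw [hPb d0.1, hP0, hP0, sub_zero]
      | w => exact anti _ _ (hw _)
    | w => exact hw t
  rw [hψ, hφ0, hφ0, hφ0]
  abel

end Pool.Agent.helper35.VN
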