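import Pool.Agent.helper35.VN.KosD

set_option autoImplicit false

/-!
# The closed neighbourhood ideal: membership, the v-number from below, the regularity from above
-/

namespace Pool.Agent.helper35.VN

open MvPolynomial Finset
open scoped Classical

noncomputable section

/-- The closed neighbourhood `N[v]`. -/
def nbhd {V : Type*} [Fintype V] (G : SimpleGraph V) (v : V) : Finset V :=
  Finset.univ.filter (fun u => u = v ∨ G.Adj v u)

/-- The closed neighbourhood ideal `𝒩_G` in the polynomial ring in the vertices of `G`. -/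
def nbhdIdeal (K : Type*) [Field K] {V : Type*} [Fintype V] (G : SimpleGraph V) : Ideal (MvPolynomial V K) :=
  Ideal.span (Set.range (fun v => ∏ u ∈ nbhd G v, (X u : MvPolynomial V K)))

/-- The v-number: the least `d` such that `(I : f)` is an associated prime `P` of `S/I` for some `f` of degree `d`. -/
def vNumber {K : Type*} [Field K] {V : Type*} (I : Ideal (MvPolynomial V K)) : ℕ∞ :=
  ⨅ d : {d : ℕ // ∃ f : MvPolynomial V K, f.IsHomogeneous d ∧
    ∃ P ∈ associatedPrimes (MvPolynomial V K) (MvPolynomial V K ⧸ I), ∀ g, g ∈ P ↔ g * f ∈ I}, (d.1 : ℕ∞)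

/-- The Castelnuovo-Mumford regularity of `S/I`: the largest `e` such that `Tor_i(S/I, K)_{i+e} ≠ 0` for some `i`. -/
def reg {K : Type*} [Field K] {V : Type*} [Fintype V] [LinearOrder V] (I : Ideal (MvPolynomial V K)) : ℕ∞ :=
  ⨆ e : {e : ℕ // ∃ i, TorNeZero I i e}, (e.1 : ℕ∞)

/-- `F` contains a closed neighbourhood. -/
def NF {V : Type*} [Fintype V] (G : SimpleGraph V) (F : Finset V) : Prop := ∃ v, nbhd G v ⊆ F

theorem NF_mono {V : Type*} [Fintype V] (G : SimpleGraph V) {A B : Finset V} (h : A ⊆ B) (hA : NF G A) : NF G B :=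
  hA.imp fun _ hv => hv.trans h

theorem sum_single_apply {V : Type*} (F : Finset V) (v : V) :
    (∑ u ∈ F, (Finsupp.single u 1 : V →₀ ℕ)) v = if v ∈ F then 1 else 0 := by
  rw [Finsupp.finsetSum_apply]
  simp only [Finsupp.single_apply]
  rw [Finset.sum_ite_eq']

theorem prod_X_eq {V : Type*} (K : Type*) [Field K] (F : Finset V) :
    (∏ u ∈ F, (X u : MvPolynomial V K)) = monomial (∑ u ∈ F, Finsupp.single u 1) 1 := by
  rw [monomial_sum_one]
  rfl

theorem mem_nbhdIdeal {V : Type*} [Fintype V] (K : Type*) [Field K] (G : SimpleGraph V) (p : MvPolynomial V K) :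
    p ∈ nbhdIdeal K G ↔ ∀ m ∈ p.support, NF G m.support := by
  have h1 : nbhdIdeal K G = Ideal.span ((fun s => monomial s (1 : K)) ''
      (Set.range (fun v => ∑ u ∈ nbhd G v, (Finsupp.single u 1 : V →₀ ℕ)))) := by
    unfold nbhdIdeal
    rw [← Set.range_comp]
    congr 2
    funext v
    exact prod_X_eq K _
  rw [h1, mem_ideal_span_monomial_image]
  refine forall₂_congr fun m _ => ?_
  unfold NF
  constructor
  · rintro ⟨_, ⟨v, rfl⟩, h⟩
    refine ⟨v, fun u hu => ?_⟩
    have h2 := h u
    simp only at h2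
    rw [sum_single_apply, if_pos hu] at h2
    rw [Finsupp.mem_support_iff]
    omega
  · rintro ⟨v, h⟩
    refine ⟨_, ⟨v, rfl⟩, fun u => ?_⟩
    simp only
    rw [sum_single_apply]
    split_ifs with hu
    · have h3 := Finsupp.mem_support_iff.mp (h hu)
      omega
    · exact Nat.zero_le _

/-- The regularity from above. -/
theorem reg_le {V : Type*} [Fintype V] [LinearOrder V] (K : Type*) [Field K] (G : SimpleGraph V)
    (hD : ∀ F, ¬ NF G F → F.card + 3 ≤ Fintype.card V)
    (hSF : ∀ T Q : Finset V, T ⊆ Q → Q.card = 3 → bc K T (ind Qᶜ) ∈ Bd K (NF G)) :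
    reg (nbhdIdeal K G) ≤ ((Fintype.card V - 4 : ℕ) : ℕ∞) := by
  unfold reg
  refine iSup_le fun e => ?_
  obtain ⟨e, i, he⟩ := e
  by_contra h
  have h1 : Fintype.card V ≤ e + 3 := by
    have h2 : ¬ (e ≤ Fintype.card V - 4) := fun h3 => h (by exact_mod_cast h3)
    omega
  exact no_tor (nbhdIdeal K G) (NF G) (mem_nbhdIdeal K G) hD hSF i e h1 he

/-- The v-number from below. -/
theorem le_vNumber {V : Type*} [Fintype V] (K : Type*) [Field K] (G : SimpleGraph V) (b : ℕ)
    (hE : ∀ B C : Finset V, C ⊆ B → (∀ v, ∃ u ∈ C, u ∈ nbhd G v) →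
      (∀ i ∈ C, ∃ v, i ∈ nbhd G v ∧ ∀ u ∈ B, u ∈ nbhd G v → u = i) → B.card ≤ b) :
    ((Fintype.card V - b : ℕ) : ℕ∞) ≤ vNumber (nbhdIdeal K G) := by
  unfold vNumber
  refine le_iInf fun d => ?_
  obtain ⟨d, f, hf, P, hP, hPf⟩ := d
  have hprime : P.IsPrime := hP.1
  have hfI : f ∉ nbhdIdeal K G := by
    intro h
    have h1 : (1 : MvPolynomial V K) ∈ P := (hPf 1).mpr (by rwa [one_mul])
    exact hprime.ne_top ((Ideal.eq_top_iff_one P).mpr h1)
  rw [mem_nbhdIdeal] at hfI
  push Not at hfI
  obtain ⟨m, hm, hmN⟩ := hfI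
  -- the set of the variables in `P`
  have hgen : ∀ v, ∃ u ∈ nbhd G v, (X u : MvPolynomial V K) ∈ P := by
    intro v
    have h1 : (∏ u ∈ nbhd G v, (X u : MvPolynomial V K)) ∈ P := by
      rw [hPf]
      exact Ideal.mul_mem_right _ _ (Ideal.subset_span ⟨v, rfl⟩)
    exact (hprime.prod_mem_iff).mp h1
  have hX : ∀ u, (X u : MvPolynomial V K) ∈ P → NF G (insert u m.support) := by
    intro u hu
    rw [hPf, mem_nbhdIdeal] at hu
    have h1 : (Finsupp.single u 1 + m) ∈ (X u * f).support := by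
      rw [mem_support_iff, coeff_X_mul]
      exact mem_support_iff.mp hm
    refine NF_mono G ?_ (hu _ h1)
    intro w hw
    rw [Finsupp.mem_support_iff, Finsupp.add_apply] at hw
    rw [Finset.mem_insert, Finsupp.mem_support_iff]
    by_cases hwu : w = u
    · exact Or.inl hwu
    · rw [Finsupp.single_eq_of_ne hwu, zero_add] at hw
      exact Or.inr hw
  have hCu : ∀ u, (X u : MvPolynomial V K) ∈ P → u ∉ m.support := by
    intro u hu h1
    have h2 := hX u hu
    rw [Finset.insert_eq_of_mem h1] at h2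
    exact hmN h2
  have hB := hE (m.supportᶜ) (Finset.univ.filter (fun u => (X u : MvPolynomial V K) ∈ P)) (fun u hu => by
      rw [Finset.mem_compl]
      exact hCu u (Finset.mem_filter.mp hu).2) (fun v => by
      obtain ⟨u, hu1, hu2⟩ := hgen v
      exact ⟨u, Finset.mem_filter.mpr ⟨Finset.mem_univ _, hu2⟩, hu1⟩) (fun i hi => by
      have hi' := (Finset.mem_filter.mp hi).2
      obtain ⟨v, hv⟩ := hX i hi'
      refine ⟨v, ?_, fun u hu1 hu2 => ?_⟩
      · by_contra h
        refine hmN ⟨v, fun u hu => ?_⟩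
        rcases Finset.mem_insert.mp (hv hu) with h3 | h3
        · exact absurd (h3 ▸ hu) h
        · exact h3
      · rcases Finset.mem_insert.mp (hv hu2) with h3 | h3
        · exact h3
        · exact absurd h3 (Finset.mem_compl.mp hu1))
  rw [Finset.card_compl] at hB
  have hdeg : m.support.card ≤ d := by
    have h1 : Finsupp.weight (1 : V → ℕ) m = d := hf (mem_support_iff.mp hm)
    rw [Finsupp.weight_apply, Finsupp.sum] at h1
    rw [← h1, Finset.card_eq_sum_ones]
    refine Finset.sum_le_sum fun v hv => ?_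
    rw [Pi.one_apply, smul_eq_mul, mul_one]
    have := Finsupp.mem_support_iff.mp hv
    omega
  have h5 : Fintype.card V - b ≤ d := by omega
  exact_mod_cast h5

end

end Pool.Agent.helper35.VN
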