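import Pool.Agent.helper35.VN.VnA
import Pool.Agent.helper35.VN.TauB

set_option autoImplicit false

/-!
# The v-number and the regularity of the complement of the graph of a pair of nets
-/

namespace Pool.Agent.helper35.VN

open MvPolynomial Finset
open scoped Classical

noncomputable section

/-- The v-number from above, by a minimal dominating set. -/
theorem vNumber_le {V : Type*} [Fintype V] (K : Type*) [Field K] (G : SimpleGraph V) (D : Finset V)
    (hdom : ∀ v, ∃ d ∈ D, d ∈ nbhd G v) (hpriv : ∀ d ∈ D, ∃ v, ∀ d' ∈ D, d' ∈ nbhd G v ↔ d' = d) :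
    vNumber (nbhdIdeal K G) ≤ (((Finset.univ \ D).card : ℕ) : ℕ∞) := by
  obtain ⟨φ, hφ⟩ : ∃ φ : MvPolynomial V K →ₐ[K] MvPolynomial V K,
      φ = aeval (fun v => if v ∈ D then (0 : MvPolynomial V K) else X v) := ⟨_, rfl⟩
  have hφX : ∀ v, φ (X v) = if v ∈ D then 0 else X v := by
    intro v
    rw [hφ, aeval_X]
  have hsub : ∀ p : MvPolynomial V K, p - φ p ∈ Ideal.span (X '' (D : Set V) : Set (MvPolynomial V K)) := by
    intro p
    rw [hφ]
    induction p using MvPolynomial.induction_on with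
    | C a =>
      rw [aeval_C, MvPolynomial.algebraMap_eq, sub_self]
      exact Ideal.zero_mem _
    | add p q hp hq =>
      rw [map_add, add_sub_add_comm]
      exact Ideal.add_mem _ hp hq
    | mul_X p v hp =>
      rw [map_mul, aeval_X]
      by_cases hv : v ∈ D
      · rw [if_pos hv, mul_zero, sub_zero]
        exact Ideal.mul_mem_left _ _ (Ideal.subset_span ⟨v, hv, rfl⟩)
      · rw [if_neg hv, ← sub_mul]
        exact Ideal.mul_mem_right _ _ hp
  obtain ⟨xF, hxF⟩ : ∃ xF : MvPolynomial V K, xF = ∏ u ∈ Finset.univ \ D, X u := ⟨_, rfl⟩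
  have hφF : φ xF = xF := by
    rw [hxF, map_prod]
    refine Finset.prod_congr rfl fun u hu => ?_
    rw [hφX, if_neg (Finset.mem_sdiff.1 hu).2]
  have hF0 : xF ≠ 0 := by
    rw [hxF, Finset.prod_ne_zero_iff]
    intro u _
    exact MvPolynomial.X_ne_zero u
  obtain ⟨P, hP⟩ : ∃ P : Ideal (MvPolynomial V K), P = RingHom.ker φ := ⟨_, rfl⟩
  have hPp : P.IsPrime := by
    rw [hP]
    exact RingHom.ker_isPrime _
  have hmem : ∀ g, g ∈ P ↔ g * xF ∈ nbhdIdeal K G := by
    intro g
    constructor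
    · intro hg
      have h1 : g ∈ Ideal.span (X '' (D : Set V) : Set (MvPolynomial V K)) := by
        have h2 := hsub g
        rw [hP, RingHom.mem_ker] at hg
        rw [hg, sub_zero] at h2
        exact h2
      refine Submodule.span_induction (p := fun g _ => g * xF ∈ nbhdIdeal K G) ?_ ?_ ?_ ?_ h1
      · rintro _ ⟨d, hd, rfl⟩
        obtain ⟨v, hv2⟩ := hpriv d hd
        have h3 : (∏ u ∈ nbhd G v, (X u : MvPolynomial V K)) ∣ X d * xF := by
          have h4 : X d * xF = ∏ u ∈ insert d (Finset.univ \ D), (X u : MvPolynomial V K) := by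
            rw [Finset.prod_insert (fun h5 => (Finset.mem_sdiff.1 h5).2 hd), hxF]
          rw [h4]
          refine Finset.prod_dvd_prod_of_subset _ _ _ ?_
          intro u hu
          rw [Finset.mem_insert, Finset.mem_sdiff]
          by_cases hud : u ∈ D
          · exact Or.inl ((hv2 u hud).1 hu)
          · exact Or.inr ⟨Finset.mem_univ u, hud⟩
        exact Ideal.mem_of_dvd _ h3 (Ideal.subset_span ⟨v, rfl⟩)
      · rw [zero_mul]
        exact Ideal.zero_mem _
      · intro a b _ _ ha hb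
        rw [add_mul]
        exact Ideal.add_mem _ ha hb
      · intro a b _ hb
        rw [smul_eq_mul, mul_assoc]
        exact Ideal.mul_mem_left _ _ hb
    · intro hg
      have hI : nbhdIdeal K G ≤ P := by
        unfold nbhdIdeal
        rw [Ideal.span_le]
        rintro _ ⟨v, rfl⟩
        obtain ⟨d, hd, hdv⟩ := hdom v
        have h2 : (X d : MvPolynomial V K) ∣ ∏ u ∈ nbhd G v, X u := Finset.dvd_prod_of_mem _ hdv
        refine Ideal.mem_of_dvd _ h2 ?_
        rw [hP, RingHom.mem_ker, hφX, if_pos hd]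
      have h3 := hI hg
      rcases hPp.mem_or_mem h3 with h4 | h4
      · exact h4
      · exfalso
        rw [hP, RingHom.mem_ker, hφF] at h4
        exact hF0 h4
  have hhom : xF.IsHomogeneous (Finset.univ \ D).card := by
    rw [hxF]
    have h1 := MvPolynomial.IsHomogeneous.prod (Finset.univ \ D) (fun u => (X u : MvPolynomial V K))
      (fun _ => 1) (fun u _ => isHomogeneous_X K u)
    rwa [Finset.sum_const, smul_eq_mul, mul_one] at h1
  have hass : P ∈ associatedPrimes (MvPolynomial V K) (MvPolynomial V K ⧸ nbhdIdeal K G) := by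
    refine ⟨hPp, Ideal.Quotient.mk _ xF, ?_⟩
    have h1 : P = Submodule.colon (⊥ : Submodule (MvPolynomial V K)
        (MvPolynomial V K ⧸ nbhdIdeal K G)) {Ideal.Quotient.mk _ xF} := by
      ext g
      rw [hmem, Submodule.mem_colon_singleton, Submodule.mem_bot, ← Ideal.Quotient.eq_zero_iff_mem,
        map_mul]
      rfl
    rw [← h1, hPp.radical]
  exact iInf_le (fun d : {d : ℕ // ∃ f : MvPolynomial V K, f.IsHomogeneous d ∧
    ∃ P ∈ associatedPrimes (MvPolynomial V K) (MvPolynomial V K ⧸ nbhdIdeal K G),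
      ∀ g, g ∈ P ↔ g * f ∈ nbhdIdeal K G} => (d.1 : ℕ∞)) ⟨_, xF, hhom, P, hass, hmem⟩

theorem or3 {W : Type*} [DecidableEq W] [Fintype W] (x y z u : W) (h : u ∉ ({x, y, z} : Finset W)ᶜ) :
    u = x ∨ u = y ∨ u = z := by
  rw [Finset.mem_compl, not_not] at h
  simpa using h

variable {I J : Type} {τ : I × J → I × J}

/-- The complement of the graph of `τ`, with the vertices labelled by `V`. -/
def tg {V : Type*} (hτ : Good τ) (e : V ≃ Vt I J) : SimpleGraph V where
  Adj u v := u ≠ v ∧ ¬ HAdj τ (e u) (e v)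
  symm := ⟨fun _ _ h => ⟨h.1.symm, fun h' => h.2 (HAdj_symm hτ _ _ h')⟩⟩
  loopless := ⟨fun _ h => h.1 rfl⟩

variable {V : Type*} [Fintype V] (hτ : Good τ) (e : V ≃ Vt I J)

theorem mem_nbhd_tg (u v : V) : u ∈ nbhd (tg hτ e) v ↔ ¬ HAdj τ (e v) (e u) := by
  unfold nbhd
  rw [Finset.mem_filter]
  constructor
  · rintro ⟨_, rfl | h⟩
    · exact HAdj_irrefl hτ _
    · exact h.2
  · intro h
    refine ⟨Finset.mem_univ _, ?_⟩
    by_cases huv : u = v
    · exact Or.inl huv
    · exact Or.inr ⟨fun h' => huv h'.symm, h⟩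

theorem NF_tg (Q : Finset V) : NF (tg hτ e) Qᶜ ↔ ∃ v, ∀ u ∈ Q, HAdj τ v (e u) := by
  unfold NF
  constructor
  · rintro ⟨v, hv⟩
    refine ⟨e v, fun u hu => ?_⟩
    by_contra h
    exact Finset.mem_compl.mp (hv ((mem_nbhd_tg hτ e u v).mpr h)) hu
  · rintro ⟨v, hv⟩
    refine ⟨e.symm v, fun u hu => ?_⟩
    rw [Finset.mem_compl]
    intro hu'
    rw [mem_nbhd_tg, e.apply_symm_apply] at hu
    exact hu (hv u hu')

theorem card_small [Nonempty I] [Nonempty J] (Q : Finset V) (hQ : Q.card ≤ 2) : NF (tg hτ e) Qᶜ := by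
  rw [NF_tg]
  rcases Nat.lt_or_ge Q.card 1 with h | h
  · have h1 : Q = ∅ := Finset.card_eq_zero.mp (by omega)
    rw [h1]
    exact ⟨.w, fun u hu => absurd hu (Finset.notMem_empty u)⟩
  rcases Nat.lt_or_ge Q.card 2 with h2 | h2
  · obtain ⟨x, rfl⟩ := Finset.card_eq_one.mp (show Q.card = 1 by omega)
    obtain ⟨v, h3, _⟩ := pair hτ (e x) (e x)
    exact ⟨v, fun u hu => by rw [Finset.mem_singleton.mp hu]; exact h3⟩
  · obtain ⟨x, y, _, rfl⟩ := Finset.card_eq_two.mp (show Q.card = 2 by omega)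
    obtain ⟨v, h3, h4⟩ := pair hτ (e x) (e y)
    refine ⟨v, fun u hu => ?_⟩
    rcases Finset.mem_insert.mp hu with rfl | h5
    · exact h3
    · rw [Finset.mem_singleton.mp h5]
      exact h4

theorem tg_D [Nonempty I] [Nonempty J] (F : Finset V) (hF : ¬ NF (tg hτ e) F) : F.card + 3 ≤ Fintype.card V := by
  by_contra h
  refine hF ?_
  have h1 := card_small hτ e Fᶜ (by
    rw [Finset.card_compl]
    omega)
  rwa [compl_compl] at h1

theorem tg_E [Nonempty I] [Nonempty J] (B C : Finset V) (hCB : C ⊆ B)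
    (hdom : ∀ v, ∃ u ∈ C, u ∈ nbhd (tg hτ e) v)
    (hpriv : ∀ i ∈ C, ∃ v, i ∈ nbhd (tg hτ e) v ∧ ∀ u ∈ B, u ∈ nbhd (tg hτ e) v → u = i) : B.card ≤ 3 := by
  by_contra hB
  have hC3 : 3 ≤ C.card := by
    by_contra h
    obtain ⟨v, hv⟩ := (NF_tg hτ e C).mp (card_small hτ e C (by omega))
    obtain ⟨u, hu, h1⟩ := hdom (e.symm v)
    rw [mem_nbhd_tg, e.apply_symm_apply] at h1
    exact h1 (hv u hu)
  -- the base point
  obtain ⟨o, ho, hoC⟩ : ∃ o ∈ B, 3 ≤ (C.erase o).card := by
    by_cases h : ∃ o ∈ B, o ∉ C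
    · obtain ⟨o, ho, hoC⟩ := h
      exact ⟨o, ho, by rwa [Finset.erase_eq_of_notMem hoC]⟩
    · push Not at h
      have hBC : B = C := Finset.Subset.antisymm h hCB
      obtain ⟨o, ho⟩ : B.Nonempty := Finset.card_pos.mp (by omega)
      refine ⟨o, ho, ?_⟩
      rw [← hBC, Finset.card_erase_of_mem ho]
      omega
  have hflag := flag hτ (e '' (B : Set V)) (e o) (by
    rintro _ ⟨x, hx, rfl⟩ _ ⟨y, hy, rfl⟩
    obtain ⟨i, hi, hix, hiy⟩ : ∃ i ∈ C.erase o, i ≠ x ∧ i ≠ y := by
      by_contra h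
      push Not at h
      have h1 : C.erase o ⊆ {x, y} := by
        intro i hi
        rw [Finset.mem_insert, Finset.mem_singleton]
        by_cases h2 : i = x
        · exact Or.inl h2
        · exact Or.inr (h i hi h2)
      have h2 := Finset.card_le_card h1
      have h3 : ({x, y} : Finset V).card ≤ 2 := Finset.card_le_two
      omega
    rw [Finset.mem_erase] at hi
    obtain ⟨v, _, hv⟩ := hpriv i hi.2
    have hv' : ∀ u ∈ B, u ≠ i → HAdj τ (e v) (e u) := by
      intro u hu hui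
      by_contra h
      exact hui (hv u hu ((mem_nbhd_tg hτ e u v).mpr h))
    exact ⟨e v, hv' o ho hi.1.symm, hv' x hx hix.symm, hv' y hy hiy.symm⟩) ⟨o, ho, rfl⟩
  obtain ⟨v, hv⟩ := hflag
  obtain ⟨u, hu, h1⟩ := hdom (e.symm v)
  rw [mem_nbhd_tg, e.apply_symm_apply] at h1
  exact h1 (hv _ ⟨u, hCB hu, rfl⟩)

theorem rtg_lift {α β : Type*} {r : α → α → Prop} {p : β → β → Prop} (f : α → β)
    (h : ∀ a b, r a b → p (f a) (f b)) {a b : α} (hab : Relation.ReflTransGen r a b) :
    Relation.ReflTransGen p (f a) (f b) := by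
  induction hab with
  | refl => exact Relation.ReflTransGen.refl
  | tail _ hbc ih => exact ih.tail (h _ _ hbc)

theorem NF3_of_Fc (F : Finset V) (x y z : V) (hF : ∀ u, u ∉ F → u = x ∨ u = y ∨ u = z)
    (h : Fc τ (e x) (e y) (e z)) : NF (tg hτ e) F := by
  obtain ⟨v, h1, h2, h3⟩ := h
  refine ⟨e.symm v, fun u hu => ?_⟩
  by_contra hu'
  rw [mem_nbhd_tg, e.apply_symm_apply] at hu
  rcases hF u hu' with rfl | rfl | rfl
  · exact hu h1
  · exact hu h2
  · exact hu h3

theorem tg_reg [LinearOrder V] [Nontrivial I] [Nontrivial J] (K : Type*) [Field K]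
    (hR : Rigid τ (Ch V K ⧸ Bd K (NF (tg hτ e)))) :
    reg (nbhdIdeal K (tg hτ e)) ≤ ((Fintype.card V - 4 : ℕ) : ℕ∞) := by
  refine reg_le K _ (tg_D hτ e) (hSF_of (NF (tg hτ e)) ?_ ?_ ?_ ?_)
  · obtain ⟨i0⟩ : Nonempty I := inferInstance
    obtain ⟨j0⟩ : Nonempty J := inferInstance
    have h1 : ({.w, .a i0, .b j0, .d (i0, j0)} : Finset (Vt I J)).card = 4 := by
      rw [Finset.card_insert_of_notMem (by simp), Finset.card_insert_of_notMem (by simp),
        Finset.card_insert_of_notMem (by simp), Finset.card_singleton]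
    have h2 := Finset.card_le_univ (({.w, .a i0, .b j0, .d (i0, j0)} : Finset (Vt I J)).map e.symm.toEmbedding)
    rwa [Finset.card_map, h1] at h2
  · intro x y hxy
    obtain ⟨s, hsx, hsy, hs⟩ := tri hτ (e x) (e y)
    refine ⟨e.symm s, fun h => hsx (by rw [← h, e.apply_symm_apply]), fun h => hsy (by rw [← h, e.apply_symm_apply]), ?_⟩
    exact NF3_of_Fc hτ e _ x y (e.symm s) (fun u hu => or3 _ _ _ _ hu) (by rwa [e.apply_symm_apply])
  · intro x s t hs ht
    have h1 := conn hτ (e x) (e s) (e t) (fun h => hs (e.injective h)) (fun h => ht (e.injective h))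
    have h2 : ∀ a b : Vt I J, Lk τ (e x) a b → (e.symm b ≠ x ∧ NF (tg hτ e) ({x, e.symm a, e.symm b} : Finset V)ᶜ) := by
      rintro a b ⟨_, hb, hf⟩
      refine ⟨fun h => hb (by rw [← h, e.apply_symm_apply]),
        NF3_of_Fc hτ e _ x (e.symm a) (e.symm b) (fun u hu => or3 _ _ _ _ hu) ?_⟩
      rwa [e.apply_symm_apply, e.apply_symm_apply]
    have h3 : Relation.ReflTransGen (fun a b : V => b ≠ x ∧ NF (tg hτ e) ({x, a, b} : Finset V)ᶜ)
        (e.symm (e s)) (e.symm (e t)) := rtg_lift e.symm h2 h1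
    rwa [e.symm_apply_apply, e.symm_apply_apply] at h3
  · intro s t u
    have h1 := cohom hτ hR (fun s t u => psi K (NF (tg hτ e)) (e.symm s) (e.symm t) (e.symm u))
      (fun s u => psi_self _ _ _) (fun s t u v => psi_cocycle _ _ _ _ _)
      (fun s t u h => psi_face _ _ _ _ (NF3_of_Fc hτ e _ (e.symm s) (e.symm t) (e.symm u)
        (fun u hu => or3 _ _ _ _ hu) (by
          rwa [e.apply_symm_apply, e.apply_symm_apply, e.apply_symm_apply]))) (e s) (e t) (e u)
    beta_reduce at h1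
    rwa [e.symm_apply_apply, e.symm_apply_apply, e.symm_apply_apply] at h1

theorem tg_v [Nontrivial I] [Nontrivial J] (K : Type*) [Field K] :
    vNumber (nbhdIdeal K (tg hτ e)) = ((Fintype.card V - 3 : ℕ) : ℕ∞) := by
  refine le_antisymm ?_ (le_vNumber K _ 3 (tg_E hτ e))
  obtain ⟨i0, i1, hi⟩ := exists_pair_ne I
  obtain ⟨D, hD⟩ : ∃ D : Finset V, D = {e.symm .w, e.symm (.a i0), e.symm (.a i1)} := ⟨_, rfl⟩
  have hcard : D.card = 3 := by
    rw [hD, Finset.card_eq_three]
    refine ⟨_, _, _, fun h => ?_, fun h => ?_, fun h => ?_, rfl⟩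
    · have h1 := e.symm.injective h
      simp at h1
    · have h1 := e.symm.injective h
      simp at h1
    · exact hi (Vt.a.inj (e.symm.injective h))
  have hnf : ¬ NF (tg hτ e) Dᶜ := by
    rw [NF_tg]
    rintro ⟨v, hv⟩
    have h1 := hv (e.symm .w) (by rw [hD]; simp)
    have h2 := hv (e.symm (.a i0)) (by rw [hD]; simp)
    have h3 := hv (e.symm (.a i1)) (by rw [hD]; simp)
    rw [e.apply_symm_apply] at h1 h2 h3
    cases v with
    | d z =>
      have h4 : z.1 = i0 := h2
      have h5 : z.1 = i1 := h3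
      exact hi (h4.symm.trans h5)
    | a i => exact h1
    | b j => exact h1
    | w => exact h1
  have hdom : ∀ v, ∃ d ∈ D, d ∈ nbhd (tg hτ e) v := by
    intro v
    by_contra h
    push Not at h
    refine hnf ⟨v, fun u hu => ?_⟩
    rw [Finset.mem_compl]
    exact fun hu' => h u hu' hu
  have h1 := vNumber_le K (tg hτ e) D hdom (fun d hd => by
    obtain ⟨v, hv⟩ := card_small hτ e (D.erase d) (by rw [Finset.card_erase_of_mem hd]; omega)
    refine ⟨v, fun d' hd' => ⟨fun h => ?_, fun h => ?_⟩⟩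
    · by_contra hne
      exact Finset.mem_compl.mp (hv h) (Finset.mem_erase.mpr ⟨hne, hd'⟩)
    · obtain ⟨d'', h2, h3⟩ := hdom v
      have h4 : d'' = d := by
        by_contra hne
        exact Finset.mem_compl.mp (hv h3) (Finset.mem_erase.mpr ⟨hne, h2⟩)
      rw [h, ← h4]
      exact h3)
  rw [← Finset.compl_eq_univ_sdiff, Finset.card_compl, hcard] at h1
  exact h1

theorem tg_connected [Nontrivial I] [Nonempty J] : (tg hτ e).Connected := by
  rw [SimpleGraph.connected_iff_exists_forall_reachable]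
  refine ⟨e.symm .w, fun v => ?_⟩
  have hr : ∀ x y : Vt I J, x ≠ y → ¬ HAdj τ x y → (tg hτ e).Reachable (e.symm x) (e.symm y) := by
    intro x y hxy h
    refine SimpleGraph.Adj.reachable ⟨fun h' => hxy (e.symm.injective h'), ?_⟩
    rwa [e.apply_symm_apply, e.apply_symm_apply]
  rw [← e.symm_apply_apply v]
  generalize e v = x
  cases x with
  | d y =>
    obtain ⟨i, hi⟩ := exists_ne y.1
    exact (hr .w (.a i) (by simp) (fun h => h)).trans
      (hr (.a i) (.d y) (by simp) (fun h => hi (Eq.symm h)))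
  | a i => exact hr .w (.a i) (by simp) (fun h => h)
  | b j => exact hr .w (.b j) (by simp) (fun h => h)
  | w => exact SimpleGraph.Reachable.refl _

end

end Pool.Agent.helper35.VN
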